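import Mathlib

set_option autoImplicit false

/-! Dynamical Mordell-Lang for the map (x^2+y, y^2+z, z^2+x) at every point whose coordinate field
embeds into the real numbers. -/

namespace Pool.Agent.Results.MP_e9abfe_ag.RealPoints

open MvPolynomial Filter Topology




/-- The weighted `ℓ¹` norm of a real polynomial in three variables. -/
noncomputable def nrm (ρ : ℝ) (P : MvPolynomial (Fin 3) ℝ) : ℝ :=
  ∑ κ ∈ P.support, |P.coeff κ| * ρ ^ κ.degree

lemma nrm_eq_sum_of_subset (ρ : ℝ) (P : MvPolynomial (Fin 3) ℝ) (s : Finset (Fin 3 →₀ ℕ))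
    (h : P.support ⊆ s) : nrm ρ P = ∑ κ ∈ s, |P.coeff κ| * ρ ^ κ.degree := by
  unfold nrm
  apply Finset.sum_subset h
  intro κ _ hκ
  rw [notMem_support_iff] at hκ
  rw [hκ]; simp

lemma nrm_nonneg {ρ : ℝ} (hρ : 0 ≤ ρ) (P : MvPolynomial (Fin 3) ℝ) : 0 ≤ nrm ρ P :=
  Finset.sum_nonneg fun κ _ => mul_nonneg (abs_nonneg _) (pow_nonneg hρ _)

lemma nrm_zero (ρ : ℝ) : nrm ρ 0 = 0 := by simp [nrm]

lemma nrm_add_le {ρ : ℝ} (hρ : 0 ≤ ρ) (P Q : MvPolynomial (Fin 3) ℝ) :
    nrm ρ (P + Q) ≤ nrm ρ P + nrm ρ Q := by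
  classical
  rw [nrm_eq_sum_of_subset ρ (P + Q) (P.support ∪ Q.support) support_add,
    nrm_eq_sum_of_subset ρ P (P.support ∪ Q.support) Finset.subset_union_left,
    nrm_eq_sum_of_subset ρ Q (P.support ∪ Q.support) Finset.subset_union_right,
    ← Finset.sum_add_distrib]
  apply Finset.sum_le_sum
  intro κ _
  rw [coeff_add, ← add_mul]
  exact mul_le_mul_of_nonneg_right (abs_add_le _ _) (pow_nonneg hρ _)

lemma nrm_neg (ρ : ℝ) (P : MvPolynomial (Fin 3) ℝ) : nrm ρ (-P) = nrm ρ P := by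
  unfold nrm
  rw [support_neg]
  simp

lemma nrm_sub_le {ρ : ℝ} (hρ : 0 ≤ ρ) (P Q : MvPolynomial (Fin 3) ℝ) :
    nrm ρ (P - Q) ≤ nrm ρ P + nrm ρ Q := by
  rw [sub_eq_add_neg]
  calc nrm ρ (P + -Q) ≤ nrm ρ P + nrm ρ (-Q) := nrm_add_le hρ _ _
    _ = _ := by rw [nrm_neg]

lemma nrm_sum_le {ρ : ℝ} (hρ : 0 ≤ ρ) {ι : Type} (s : Finset ι)
    (f : ι → MvPolynomial (Fin 3) ℝ) : nrm ρ (∑ i ∈ s, f i) ≤ ∑ i ∈ s, nrm ρ (f i) := by
  classical
  induction s using Finset.induction_on with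
  | empty => simp [nrm_zero]
  | insert a s ha ih =>
    rw [Finset.sum_insert ha, Finset.sum_insert ha]
    exact (nrm_add_le hρ _ _).trans (by linarith)

lemma nrm_monomial (ρ : ℝ) (κ : Fin 3 →₀ ℕ) (c : ℝ) :
    nrm ρ (monomial κ c) = |c| * ρ ^ κ.degree := by
  classical
  rw [nrm_eq_sum_of_subset ρ _ {κ} support_monomial_subset]
  simp

lemma nrm_mul_le {ρ : ℝ} (hρ : 0 ≤ ρ) (P Q : MvPolynomial (Fin 3) ℝ) :
    nrm ρ (P * Q) ≤ nrm ρ P * nrm ρ Q := by
  have hP : P = ∑ κ ∈ P.support, monomial κ (P.coeff κ) := P.as_sum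
  have hQ : Q = ∑ κ ∈ Q.support, monomial κ (Q.coeff κ) := Q.as_sum
  have : P * Q = ∑ κ ∈ P.support, ∑ κ' ∈ Q.support,
      monomial (κ + κ') (P.coeff κ * Q.coeff κ') := by
    conv_lhs => rw [hP, hQ]
    rw [Finset.sum_mul_sum]
    apply Finset.sum_congr rfl; intro κ _
    apply Finset.sum_congr rfl; intro κ' _
    rw [monomial_mul]
  rw [this]
  calc nrm ρ (∑ κ ∈ P.support, ∑ κ' ∈ Q.support,
      monomial (κ + κ') (P.coeff κ * Q.coeff κ'))
      ≤ ∑ κ ∈ P.support, nrm ρ (∑ κ' ∈ Q.support,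
        monomial (κ + κ') (P.coeff κ * Q.coeff κ')) := nrm_sum_le hρ _ _
    _ ≤ ∑ κ ∈ P.support, ∑ κ' ∈ Q.support, nrm ρ
        (monomial (κ + κ') (P.coeff κ * Q.coeff κ')) :=
        Finset.sum_le_sum fun κ _ => nrm_sum_le hρ _ _
    _ = nrm ρ P * nrm ρ Q := by
        unfold nrm
        rw [Finset.sum_mul_sum]
        apply Finset.sum_congr rfl; intro κ _
        apply Finset.sum_congr rfl; intro κ' _
        have := nrm_monomial ρ (κ + κ') (P.coeff κ * Q.coeff κ')
        unfold nrm at this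
        rw [this, map_add, pow_add, abs_mul]
        ring

lemma nrm_X (ρ : ℝ) (i : Fin 3) : nrm ρ (X i) = ρ := by
  rw [X, nrm_monomial]; simp

lemma nrm_one (ρ : ℝ) : nrm ρ 1 = 1 := by
  rw [← C_1, C_apply, nrm_monomial]; simp

lemma nrm_C_mul {ρ : ℝ} (c : ℝ) (P : MvPolynomial (Fin 3) ℝ) :
    nrm ρ (C c * P) = |c| * nrm ρ P := by
  have hsub : (C c * P).support ⊆ P.support := by
    intro κ hκ
    rw [mem_support_iff] at hκ ⊢
    intro h
    apply hκ
    rw [coeff_C_mul, h, mul_zero]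
  rw [nrm_eq_sum_of_subset ρ (C c * P) P.support hsub]
  unfold nrm
  rw [Finset.mul_sum]
  apply Finset.sum_congr rfl
  intro κ _
  rw [coeff_C_mul, abs_mul]; ring

lemma nrm_X_mul_le {ρ : ℝ} (hρ : 0 ≤ ρ) (i : Fin 3) (P : MvPolynomial (Fin 3) ℝ) :
    nrm ρ (X i * P) ≤ ρ * nrm ρ P := by
  calc _ ≤ nrm ρ (X i) * nrm ρ P := nrm_mul_le hρ _ _
    _ = _ := by rw [nrm_X]

lemma nrm_expand_le {ρ : ℝ} (hρ : 0 ≤ ρ) (hρ1 : ρ ≤ 1) (P : MvPolynomial (Fin 3) ℝ)
    (h0 : P.coeff 0 = 0) : nrm ρ (expand 2 P) ≤ ρ * nrm ρ P := by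
  have hP : P = ∑ κ ∈ P.support, monomial κ (P.coeff κ) := P.as_sum
  have : expand 2 P = ∑ κ ∈ P.support, monomial (2 • κ) (P.coeff κ) := by
    conv_lhs => rw [hP]
    rw [map_sum]
    apply Finset.sum_congr rfl; intro κ _
    rw [expand_monomial]
  rw [this]
  refine (nrm_sum_le hρ _ _).trans ?_
  unfold nrm
  rw [Finset.mul_sum]
  apply Finset.sum_le_sum
  intro κ hκ
  have h2 := nrm_monomial ρ (2 • κ) (P.coeff κ)
  unfold nrm at h2
  rw [h2]
  have hκ0 : κ ≠ 0 := by
    rintro rfl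
    exact (mem_support_iff.mp hκ) h0
  have hdeg : 1 ≤ κ.degree := by
    rw [Nat.one_le_iff_ne_zero]
    intro h
    exact hκ0 ((Finsupp.degree_eq_zero_iff κ).mp h)
  have : (2 • κ).degree = κ.degree + κ.degree := by
    rw [two_nsmul, map_add]
  rw [this, pow_add]
  have h3 : ρ ^ κ.degree ≤ ρ := by
    calc ρ ^ κ.degree ≤ ρ ^ 1 := pow_le_pow_of_le_one hρ hρ1 hdeg
      _ = ρ := pow_one ρ
  have h4 : 0 ≤ |P.coeff κ| * ρ ^ κ.degree := mul_nonneg (abs_nonneg _) (pow_nonneg hρ _)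
  nlinarith

lemma abs_eval_le {ρ : ℝ} (P : MvPolynomial (Fin 3) ℝ) (p : Fin 3 → ℝ)
    (hp : ∀ i, |p i| ≤ ρ) : |eval p P| ≤ nrm ρ P := by
  rw [eval_eq]
  refine (Finset.abs_sum_le_sum_abs _ _).trans ?_
  unfold nrm
  apply Finset.sum_le_sum
  intro κ _
  rw [abs_mul]
  apply mul_le_mul_of_nonneg_left _ (abs_nonneg _)
  rw [Finset.abs_prod, Finsupp.degree_apply, ← Finset.prod_pow_eq_pow_sum]
  apply Finset.prod_le_prod
  · intro i _; exact abs_nonneg _
  · intro i _
    rw [abs_pow]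
    exact pow_le_pow_left₀ (abs_nonneg _) (hp i) _

lemma abs_eval_le_of_small {ρ θ : ℝ} (hθ0 : 0 ≤ θ) (hθ : θ ≤ 1) (hρ : 0 ≤ ρ)
    (P : MvPolynomial (Fin 3) ℝ)
    (h0 : P.coeff 0 = 0) (p : Fin 3 → ℝ)
    (hp : ∀ i, |p i| ≤ θ * ρ) : |eval p P| ≤ θ * nrm ρ P := by
  refine (abs_eval_le P p hp).trans ?_
  unfold nrm
  rw [Finset.mul_sum]
  apply Finset.sum_le_sum
  intro κ hκ
  have hκ0 : κ ≠ 0 := by
    rintro rfl
    exact (mem_support_iff.mp hκ) h0
  have hdeg : 1 ≤ κ.degree := by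
    rw [Nat.one_le_iff_ne_zero]
    intro h
    exact hκ0 ((Finsupp.degree_eq_zero_iff κ).mp h)
  rw [mul_pow]
  have h3 : θ ^ κ.degree ≤ θ := by
    calc θ ^ κ.degree ≤ θ ^ 1 := pow_le_pow_of_le_one hθ0 hθ hdeg
      _ = θ := pow_one θ
  have h4 : 0 ≤ |P.coeff κ| * ρ ^ κ.degree := mul_nonneg (abs_nonneg _) (pow_nonneg hρ _)
  nlinarith

/-! ### The approximating polynomials -/

/-- One step of the fixed point iteration for the Boettcher power series. -/
noncomputable def step (q : Fin 3 → MvPolynomial (Fin 3) ℝ) : Fin 3 → MvPolynomial (Fin 3) ℝ :=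
  fun i => C (1 / 2) * (expand 2 (q i) - X i * (1 + q (i + 1)) - q i ^ 2)

/-- The approximating polynomials. -/
noncomputable def q : ℕ → Fin 3 → MvPolynomial (Fin 3) ℝ
  | 0 => fun _ => 0
  | k + 1 => step (q k)

lemma coeff_zero_step (r : Fin 3 → MvPolynomial (Fin 3) ℝ) (h : ∀ i, (r i).coeff 0 = 0)
    (i : Fin 3) : (step r i).coeff 0 = 0 := by
  unfold step
  have h1 : (expand 2 (r i)).coeff 0 = 0 := by
    rw [coeff_expand_zero _ (by norm_num)]; exact h i
  have h2 : (X i * (1 + r (i + 1)) : MvPolynomial (Fin 3) ℝ).coeff 0 = 0 := by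
    rw [← constantCoeff_eq, map_mul, constantCoeff_X, zero_mul]
  have h3 : (r i ^ 2).coeff 0 = 0 := by
    rw [← constantCoeff_eq, map_pow, constantCoeff_eq, h i]; norm_num
  rw [coeff_C_mul, coeff_sub, coeff_sub, h1, h2, h3]
  ring

lemma coeff_zero_q (k : ℕ) (i : Fin 3) : (q k i).coeff 0 = 0 := by
  induction k generalizing i with
  | zero => simp [q]
  | succ k ih => exact coeff_zero_step _ ih i

lemma nrm_q (k : ℕ) (i : Fin 3) : nrm (1 / 8) (q k i) ≤ 1 / 4 := by
  induction k generalizing i with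
  | zero => simp [q, nrm_zero]
  | succ k ih =>
    have hρ : (0 : ℝ) ≤ 1 / 8 := by norm_num
    show nrm (1 / 8) (step (q k) i) ≤ 1 / 4
    unfold step
    rw [nrm_C_mul]
    have h1 := nrm_expand_le hρ (by norm_num) (q k i) (coeff_zero_q k i)
    have h2 := nrm_X_mul_le hρ i (1 + q k (i + 1))
    have h3 := nrm_add_le hρ 1 (q k (i + 1))
    rw [nrm_one] at h3
    have h4 := nrm_mul_le hρ (q k i) (q k i)
    rw [← sq] at h4
    have h5 := nrm_sub_le hρ (expand 2 (q k i) - X i * (1 + q k (i + 1))) (q k i ^ 2)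
    have h6 := nrm_sub_le hρ (expand 2 (q k i)) (X i * (1 + q k (i + 1)))
    have i1 := ih i
    have i2 := ih (i + 1)
    have n1 := nrm_nonneg hρ (q k i)
    rw [abs_of_pos (by norm_num : (0 : ℝ) < 1 / 2)]
    nlinarith

lemma nrm_q_diff (k : ℕ) (i : Fin 3) :
    nrm (1 / 8) (q (k + 1) i - q k i) ≤ (1 / 4) * (3 / 8) ^ k := by
  have hρ : (0 : ℝ) ≤ 1 / 8 := by norm_num
  induction k generalizing i with
  | zero =>
    have : q (0 + 1) i - q 0 i = q 1 i := by simp [q]
    rw [this]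
    simpa using nrm_q 1 i
  | succ k ih =>
    have key : q (k + 1 + 1) i - q (k + 1) i = C (1 / 2) *
        (expand 2 (q (k + 1) i - q k i) - X i * (q (k + 1) (i + 1) - q k (i + 1))
          - (q (k + 1) i - q k i) * (q (k + 1) i + q k i)) := by
      have e1 : q (k + 1 + 1) i = step (q (k + 1)) i := rfl
      have e2 : q (k + 1) i = step (q k) i := rfl
      rw [e1]
      conv_lhs => rw [e2]
      simp only [step, map_sub]
      ring
    rw [key, nrm_C_mul, abs_of_pos (by norm_num : (0 : ℝ) < 1 / 2)]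
    have h0 : (q (k + 1) i - q k i).coeff 0 = 0 := by
      rw [coeff_sub, coeff_zero_q, coeff_zero_q]; ring
    have h1 := nrm_expand_le hρ (by norm_num) _ h0
    have h2 := nrm_X_mul_le hρ i (q (k + 1) (i + 1) - q k (i + 1))
    have h3 := nrm_mul_le hρ (q (k + 1) i - q k i) (q (k + 1) i + q k i)
    have h4 := nrm_add_le hρ (q (k + 1) i) (q k i)
    have h5 := nrm_sub_le hρ (expand 2 (q (k + 1) i - q k i)
      - X i * (q (k + 1) (i + 1) - q k (i + 1))) ((q (k + 1) i - q k i) * (q (k + 1) i + q k i))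
    have h6 := nrm_sub_le hρ (expand 2 (q (k + 1) i - q k i))
      (X i * (q (k + 1) (i + 1) - q k (i + 1)))
    have i1 := ih i
    have i2 := ih (i + 1)
    have b1 := nrm_q (k + 1) i
    have b2 := nrm_q k i
    have n1 := nrm_nonneg hρ (q (k + 1) i - q k i)
    have n2 := nrm_nonneg hρ (q (k + 1) i + q k i)
    have h7 : nrm (1 / 8) (q (k + 1) i - q k i) * nrm (1 / 8) (q (k + 1) i + q k i) ≤
        nrm (1 / 8) (q (k + 1) i - q k i) * (1 / 2) :=
      mul_le_mul_of_nonneg_left (by linarith) n1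
    rw [pow_succ]
    linarith

/-! ### Good sequences -/

/-- Sequences of polynomials converging geometrically in norm. -/
def Good (A : ℕ → MvPolynomial (Fin 3) ℝ) : Prop :=
  ∃ a c : ℝ, 0 ≤ a ∧ 0 ≤ c ∧ (∀ k, nrm (1 / 8) (A k) ≤ a) ∧
    ∀ k, nrm (1 / 8) (A (k + 1) - A k) ≤ c * (3 / 8) ^ k

lemma Good.const (P : MvPolynomial (Fin 3) ℝ) : Good (fun _ => P) :=
  ⟨nrm (1 / 8) P, 0, nrm_nonneg (by norm_num) _, le_rfl, fun _ => le_rfl, fun k => by
    simp [nrm_zero]⟩

lemma Good.q (i : Fin 3) : Good (fun k => q k i) :=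
  ⟨1 / 4, 1 / 4, by norm_num, by norm_num, fun k => nrm_q k i, fun k => nrm_q_diff k i⟩

lemma Good.add {A B : ℕ → MvPolynomial (Fin 3) ℝ} (hA : Good A) (hB : Good B) :
    Good (fun k => A k + B k) := by
  obtain ⟨a, c, ha, hc, h1, h2⟩ := hA
  obtain ⟨a', c', ha', hc', h1', h2'⟩ := hB
  have hρ : (0 : ℝ) ≤ 1 / 8 := by norm_num
  refine ⟨a + a', c + c', by positivity, by positivity, fun k => ?_, fun k => ?_⟩
  · exact (nrm_add_le hρ _ _).trans (add_le_add (h1 k) (h1' k))
  · have : A (k + 1) + B (k + 1) - (A k + B k) = (A (k + 1) - A k) + (B (k + 1) - B k) := by ring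
    rw [this, add_mul]
    exact (nrm_add_le hρ _ _).trans (add_le_add (h2 k) (h2' k))

lemma Good.mul {A B : ℕ → MvPolynomial (Fin 3) ℝ} (hA : Good A) (hB : Good B) :
    Good (fun k => A k * B k) := by
  obtain ⟨a, c, ha, hc, h1, h2⟩ := hA
  obtain ⟨a', c', ha', hc', h1', h2'⟩ := hB
  have hρ : (0 : ℝ) ≤ 1 / 8 := by norm_num
  refine ⟨a * a', a * c' + c * a', by positivity, by positivity, fun k => ?_, fun k => ?_⟩
  · exact (nrm_mul_le hρ _ _).trans (mul_le_mul (h1 k) (h1' k) (nrm_nonneg hρ _) ha)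
  · have : A (k + 1) * B (k + 1) - A k * B k =
      A (k + 1) * (B (k + 1) - B k) + (A (k + 1) - A k) * B k := by ring
    rw [this]
    have e1 := (nrm_mul_le hρ (A (k + 1)) (B (k + 1) - B k)).trans
      (mul_le_mul (h1 (k + 1)) (h2' k) (nrm_nonneg hρ _) ha)
    have e2 := (nrm_mul_le hρ (A (k + 1) - A k) (B k)).trans
      (mul_le_mul (h2 k) (h1' k) (nrm_nonneg hρ _) (by positivity))
    have := nrm_add_le hρ (A (k + 1) * (B (k + 1) - B k)) ((A (k + 1) - A k) * B k)
    calc _ ≤ _ := this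
      _ ≤ a * (c' * (3 / 8) ^ k) + c * (3 / 8) ^ k * a' := add_le_add e1 e2
      _ = _ := by ring

lemma Good.pow {A : ℕ → MvPolynomial (Fin 3) ℝ} (hA : Good A) (m : ℕ) :
    Good (fun k => A k ^ m) := by
  induction m with
  | zero => simpa using Good.const 1
  | succ m ih => simpa [pow_succ] using ih.mul hA





section Dominance

variable {E : Type} (γ : E → ℂ) (τ : E → ℝ)

/-- total coefficient of the exponent `t` -/
noncomputable def Gam (t : ℝ) : ℂ := ∑' e, (if τ e = t then γ e else 0)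

variable {γ τ}

lemma summable_exp {t0 : ℝ} (hs : Summable (fun e => ‖γ e‖ * Real.exp (t0 * τ e)))
    (hneg : ∀ e, τ e ≤ 0) {s : ℝ} (h : t0 ≤ s) :
    Summable (fun e => ‖γ e‖ * Real.exp (s * τ e)) := by
  apply Summable.of_nonneg_of_le (fun e => by positivity) _ hs
  intro e
  apply mul_le_mul_of_nonneg_left _ (norm_nonneg _)
  apply Real.exp_le_exp.mpr
  exact mul_le_mul_of_nonpos_right h (hneg e)

lemma summable_term {s : ℝ} (hs : Summable (fun e => ‖γ e‖ * Real.exp (s * τ e))) :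
    Summable (fun e => γ e * (Real.exp (s * τ e) : ℂ)) := by
  apply Summable.of_norm
  refine hs.congr ?_
  intro e
  rw [norm_mul, Complex.norm_real, Real.norm_of_nonneg (Real.exp_pos _).le]

lemma summable_ite {s : ℝ} (hs : Summable (fun e => ‖γ e‖ * Real.exp (s * τ e)))
    (P : E → Prop) [DecidablePred P] :
    Summable (fun e => if P e then γ e * (Real.exp (s * τ e) : ℂ) else 0) := by
  apply Summable.of_norm_bounded hs
  intro e
  split_ifs
  · rw [norm_mul, Complex.norm_real, Real.norm_of_nonneg (Real.exp_pos _).le]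
  · simp; positivity

open Classical in
lemma sum_finset_values {s : ℝ} (hs : Summable (fun e => ‖γ e‖ * Real.exp (s * τ e)))
    (F : Finset ℝ) :
    ∑' e, (if τ e ∈ F then γ e * (Real.exp (s * τ e) : ℂ) else 0) =
      ∑ t ∈ F, (Real.exp (s * t) : ℂ) * Gam γ τ t := by
  have h1 : ∀ e, (if τ e ∈ F then γ e * (Real.exp (s * τ e) : ℂ) else 0) =
      ∑ t ∈ F, (if τ e = t then γ e * (Real.exp (s * τ e) : ℂ) else 0) := by
    intro e
    rw [Finset.sum_ite_eq]
  simp_rw [h1]
  rw [Summable.tsum_finsetSum]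
  · apply Finset.sum_congr rfl
    intro t _
    unfold Gam
    rw [← tsum_mul_left]
    congr 1
    funext e
    split_ifs with h
    · rw [h]; ring
    · simp
  · intro t _
    exact summable_ite hs _

/-- The dominance principle for exponential series along a sequence tending to infinity. -/
theorem dominance {t0 : ℝ} (hs : Summable (fun e => ‖γ e‖ * Real.exp (t0 * τ e)))
    (hneg : ∀ e, τ e ≤ 0) (hfin : ∀ θ : ℝ, (Set.range τ ∩ Set.Ici θ).Finite)
    (s : ℕ → ℝ) (hs0 : ∀ n, t0 ≤ s n) (hst : Tendsto s atTop atTop)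
    (hz : ∃ᶠ n in atTop, ∑' e, γ e * (Real.exp (s n * τ e) : ℂ) = 0) :
    ∀ n, ∑' e, γ e * (Real.exp (s n * τ e) : ℂ) = 0 := by
  classical
  -- all total coefficients vanish
  have hΓ : ∀ t, Gam γ τ t = 0 := by
    by_contra hcon
    push Not at hcon
    obtain ⟨t1, ht1⟩ := hcon
    have hrange : ∀ t, Gam γ τ t ≠ 0 → t ∈ Set.range τ := by
      intro t ht
      by_contra hnot
      apply ht
      unfold Gam
      have : ∀ e, (if τ e = t then γ e else 0) = 0 := by
        intro e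
        rw [if_neg]
        intro h
        exact hnot ⟨e, h⟩
      simp [this]
    have hfinset : {t | Gam γ τ t ≠ 0 ∧ t1 ≤ t}.Finite :=
      (hfin t1).subset (fun t ht => ⟨hrange t ht.1, ht.2⟩)
    obtain ⟨t, ht, hmax⟩ := Set.exists_max_image _ id hfinset ⟨t1, ht1, le_rfl⟩
    simp only [id] at hmax
    have hzero : ∀ t', t < t' → Gam γ τ t' = 0 := by
      intro t' htt'
      by_contra h
      exact absurd (hmax t' ⟨h, ht.2.trans htt'.le⟩) (not_le.mpr htt')
    -- the set of values above t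
    let F : Finset ℝ := (hfin t).toFinset.erase t
    have hF : ∀ e, τ e ∈ F ↔ t < τ e := by
      intro e
      simp only [F, Finset.mem_erase, Set.Finite.mem_toFinset, Set.mem_inter_iff,
        Set.mem_range, exists_apply_eq_apply, true_and, Set.mem_Ici]
      constructor
      · rintro ⟨h1, h2⟩; exact lt_of_le_of_ne h2 (Ne.symm h1)
      · intro h; exact ⟨ne_of_gt h, h.le⟩
    have hsplit : ∀ n, ∑' e, γ e * (Real.exp (s n * τ e) : ℂ) =
        ∑' e, (if τ e ≤ t then γ e * (Real.exp (s n * τ e) : ℂ) else 0) := by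
      intro n
      have hsn := summable_exp hs hneg (hs0 n)
      have h1 : ∀ e, γ e * (Real.exp (s n * τ e) : ℂ) =
          (if τ e ≤ t then γ e * (Real.exp (s n * τ e) : ℂ) else 0) +
          (if τ e ∈ F then γ e * (Real.exp (s n * τ e) : ℂ) else 0) := by
        intro e
        by_cases h : τ e ≤ t
        · rw [if_pos h, if_neg, add_zero]
          rw [hF]; exact not_lt.mpr h
        · rw [if_neg h, if_pos, zero_add]
          rw [hF]; exact not_le.mp h
      conv_lhs => arg 1; ext e; rw [h1 e]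
      rw [Summable.tsum_add (summable_ite hsn _) (summable_ite hsn _), sum_finset_values hsn]
      have : ∑ t' ∈ F, (Real.exp (s n * t') : ℂ) * Gam γ τ t' = 0 := by
        apply Finset.sum_eq_zero
        intro t' ht'
        have : t < t' := by
          simp only [F, Finset.mem_erase, Set.Finite.mem_toFinset, Set.mem_inter_iff,
            Set.mem_Ici] at ht'
          exact lt_of_le_of_ne ht'.2.2 (Ne.symm ht'.1)
        rw [hzero t' this, mul_zero]
      rw [this, add_zero]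
    -- dominated convergence
    have hlim : Tendsto (fun n => ∑' e,
        (if τ e ≤ t then γ e * (Real.exp (s n * (τ e - t)) : ℂ) else 0)) atTop
        (𝓝 (∑' e, (if τ e = t then γ e else 0))) := by
      apply tendsto_tsum_of_dominated_convergence
        (bound := fun e => ‖γ e‖ * Real.exp (t0 * τ e) * Real.exp (-(t0 * t)))
      · exact hs.mul_right _
      · intro e
        by_cases h1 : τ e = t
        · have : ∀ n, (if τ e ≤ t then γ e * (Real.exp (s n * (τ e - t)) : ℂ) else 0) = γ e := by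
            intro n
            rw [if_pos h1.le, h1]; simp
          simp only [this, if_pos h1]
          exact tendsto_const_nhds
        · rw [if_neg h1]
          by_cases h2 : τ e ≤ t
          · simp only [if_pos h2]
            have h3 : τ e - t < 0 := sub_neg.mpr (lt_of_le_of_ne h2 h1)
            have h4 : Tendsto (fun n => Real.exp (s n * (τ e - t))) atTop (𝓝 0) := by
              apply Real.tendsto_exp_atBot.comp
              exact hst.atTop_mul_const_of_neg h3
            have h5 : Tendsto (fun n => ((Real.exp (s n * (τ e - t)) : ℝ) : ℂ)) atTop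
                (𝓝 ((0 : ℝ) : ℂ)) := (Complex.continuous_ofReal.tendsto _).comp h4
            simpa using h5.const_mul (γ e)
          · simp only [if_neg h2]
            exact tendsto_const_nhds
      · filter_upwards with n e
        by_cases h2 : τ e ≤ t
        · rw [if_pos h2, norm_mul, Complex.norm_real, Real.norm_of_nonneg (Real.exp_pos _).le,
            mul_assoc, ← Real.exp_add]
          apply mul_le_mul_of_nonneg_left _ (norm_nonneg _)
          apply Real.exp_le_exp.mpr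
          have : s n * (τ e - t) ≤ t0 * (τ e - t) :=
            mul_le_mul_of_nonpos_right (hs0 n) (by linarith)
          linarith
        · rw [if_neg h2]
          simp; positivity
    have hfreq : ∃ᶠ n in atTop, ∑' e,
        (if τ e ≤ t then γ e * (Real.exp (s n * (τ e - t)) : ℂ) else 0) = 0 := by
      refine hz.mono ?_
      intro n hn
      rw [hsplit n] at hn
      have : ∀ e, (if τ e ≤ t then γ e * (Real.exp (s n * (τ e - t)) : ℂ) else 0) =
          (if τ e ≤ t then γ e * (Real.exp (s n * τ e) : ℂ) else 0) *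
            (Real.exp (-(s n * t)) : ℂ) := by
        intro e
        split_ifs
        · rw [mul_assoc, ← Complex.ofReal_mul, ← Real.exp_add]
          congr 3; ring
        · simp
      simp_rw [this]
      rw [tsum_mul_right, hn, zero_mul]
    have hG : Gam γ τ t = 0 := by
      have hmem : (∑' e, (if τ e = t then γ e else 0)) ∈ ({0} : Set ℂ) := by
        apply isClosed_singleton.mem_of_frequently_of_tendsto _ hlim
        exact hfreq
      exact hmem
    exact ht.1 hG
  -- conclusion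
  intro n
  have hsn := summable_exp hs hneg (hs0 n)
  have hk : ∀ k : ℕ, ∑' e, γ e * (Real.exp (s n * τ e) : ℂ) =
      ∑' e, (if τ e < -(k : ℝ) then γ e * (Real.exp (s n * τ e) : ℂ) else 0) := by
    intro k
    let F : Finset ℝ := (hfin (-(k : ℝ))).toFinset
    have hF : ∀ e, τ e ∈ F ↔ -(k : ℝ) ≤ τ e := by
      intro e
      simp [F]
    have h1 : ∀ e, γ e * (Real.exp (s n * τ e) : ℂ) =
        (if τ e < -(k : ℝ) then γ e * (Real.exp (s n * τ e) : ℂ) else 0) +
        (if τ e ∈ F then γ e * (Real.exp (s n * τ e) : ℂ) else 0) := by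
      intro e
      by_cases h : τ e < -(k : ℝ)
      · rw [if_pos h, if_neg, add_zero]
        rw [hF]; exact not_le.mpr h
      · rw [if_neg h, if_pos, zero_add]
        rw [hF]; exact not_lt.mp h
    conv_lhs => arg 1; ext e; rw [h1 e]
    rw [Summable.tsum_add (summable_ite hsn _) (summable_ite hsn _), sum_finset_values hsn]
    simp [hΓ]
  have hlim : Tendsto (fun k : ℕ => ∑' e,
      (if τ e < -(k : ℝ) then γ e * (Real.exp (s n * τ e) : ℂ) else 0)) atTop
      (𝓝 (∑' _e : E, (0 : ℂ))) := by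
    apply tendsto_tsum_of_dominated_convergence
      (bound := fun e => ‖γ e‖ * Real.exp (s n * τ e)) hsn
    · intro e
      apply tendsto_const_nhds.congr'
      obtain ⟨k0, hk0⟩ := exists_nat_ge (-(τ e))
      filter_upwards [eventually_ge_atTop k0] with k hk
      rw [if_neg]
      have : (k0 : ℝ) ≤ k := by exact_mod_cast hk
      linarith
    · filter_upwards with k e
      split_ifs
      · rw [norm_mul, Complex.norm_real, Real.norm_of_nonneg (Real.exp_pos _).le]
      · simp; positivity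
  have hconst : Tendsto (fun _ : ℕ => ∑' e, γ e * (Real.exp (s n * τ e) : ℂ)) atTop
      (𝓝 (∑' _e : E, (0 : ℂ))) := hlim.congr (fun k => (hk k).symm)
  have := tendsto_nhds_unique hconst tendsto_const_nhds
  simpa using this.symm

end Dominance





/-- successive differences -/
noncomputable def Dif (A : ℕ → MvPolynomial (Fin 3) ℝ) : ℕ → MvPolynomial (Fin 3) ℝ
  | 0 => A 0
  | k + 1 => A (k + 1) - A k

lemma sum_Dif (A : ℕ → MvPolynomial (Fin 3) ℝ) (k : ℕ) :
    ∑ j ∈ Finset.range (k + 1), Dif A j = A k := by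
  induction k with
  | zero => simp [Dif]
  | succ k ih => rw [Finset.sum_range_succ, ih]; simp [Dif]

lemma summable_nrm_Dif {A : ℕ → MvPolynomial (Fin 3) ℝ} (hA : Good A) :
    Summable (fun k => nrm (1 / 8) (Dif A k)) := by
  obtain ⟨a, c, ha, hc, h1, h2⟩ := hA
  rw [← summable_nat_add_iff 1]
  apply Summable.of_nonneg_of_le (fun k => nrm_nonneg (by norm_num) _) (fun k => h2 k)
  exact (summable_geometric_of_lt_one (by norm_num) (by norm_num)).mul_left c

/-- the limit function of a good sequence -/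
noncomputable def Lf (A : ℕ → MvPolynomial (Fin 3) ℝ) (p : Fin 3 → ℝ) : ℝ :=
  ∑' k, eval p (Dif A k)

lemma tendsto_Lf {A : ℕ → MvPolynomial (Fin 3) ℝ} (hA : Good A) (p : Fin 3 → ℝ)
    (hp : ∀ i, |p i| ≤ 1 / 8) : Tendsto (fun k => eval p (A k)) atTop (𝓝 (Lf A p)) := by
  have hs : Summable (fun k => eval p (Dif A k)) := by
    apply Summable.of_norm_bounded (summable_nrm_Dif hA)
    intro k
    exact abs_eval_le _ p hp
  have := hs.hasSum.tendsto_sum_nat
  have h2 := this.comp (tendsto_add_atTop_nat 1)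
  refine h2.congr ?_
  intro k
  simp only [Function.comp]
  rw [← map_sum, sum_Dif]

lemma Lf_mul {A B : ℕ → MvPolynomial (Fin 3) ℝ} (hA : Good A) (hB : Good B) (p : Fin 3 → ℝ)
    (hp : ∀ i, |p i| ≤ 1 / 8) : Lf (fun k => A k * B k) p = Lf A p * Lf B p := by
  apply tendsto_nhds_unique (tendsto_Lf (hA.mul hB) p hp)
  simp only [map_mul]
  exact (tendsto_Lf hA p hp).mul (tendsto_Lf hB p hp)

lemma Lf_const (P : MvPolynomial (Fin 3) ℝ) (p : Fin 3 → ℝ)
    (hp : ∀ i, |p i| ≤ 1 / 8) : Lf (fun _ => P) p = eval p P :=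
  tendsto_nhds_unique (tendsto_Lf (Good.const P) p hp) tendsto_const_nhds

lemma Lf_one_add_q (i : Fin 3) (p : Fin 3 → ℝ)
    (hp : ∀ i, |p i| ≤ 1 / 8) : Lf (fun k => 1 + q k i) p = 1 + Lf (fun k => q k i) p := by
  apply tendsto_nhds_unique (tendsto_Lf ((Good.const 1).add (Good.q i)) p hp)
  simp only [map_add, map_one]
  exact tendsto_const_nhds.add (tendsto_Lf (Good.q i) p hp)

lemma Lf_pow {A : ℕ → MvPolynomial (Fin 3) ℝ} (hA : Good A) (m : ℕ) (p : Fin 3 → ℝ)
    (hp : ∀ i, |p i| ≤ 1 / 8) : Lf (fun k => A k ^ m) p = Lf A p ^ m := by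
  apply tendsto_nhds_unique (tendsto_Lf (hA.pow m) p hp)
  simp only [map_pow]
  exact (tendsto_Lf hA p hp).pow m

/-- The Boettcher functions. -/
noncomputable def h (i : Fin 3) (p : Fin 3 → ℝ) : ℝ := Lf (fun k => q k i) p

lemma h_eq (i : Fin 3) (p : Fin 3 → ℝ) (hp : ∀ i, |p i| ≤ 1 / 8) :
    (1 + h i p) ^ 2 + p i * (1 + h (i + 1) p) = 1 + h i (p ^ 2) := by
  have hp2 : ∀ i, |(p ^ 2) i| ≤ 1 / 8 := by
    intro i
    rw [Pi.pow_apply, abs_pow]
    have := hp i
    have h0 := abs_nonneg (p i)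
    nlinarith
  have h1 : Tendsto (fun k => eval p (q (k + 1) i)) atTop (𝓝 (h i p)) :=
    (tendsto_Lf (Good.q i) p hp).comp (tendsto_add_atTop_nat 1)
  have h2 : Tendsto (fun k => eval p (q (k + 1) i)) atTop
      (𝓝 (1 / 2 * (h i (p ^ 2) - p i * (1 + h (i + 1) p) - h i p ^ 2))) := by
    have e : ∀ k, eval p (q (k + 1) i) = 1 / 2 * (eval (p ^ 2) (q k i)
        - p i * (1 + eval p (q k (i + 1))) - (eval p (q k i)) ^ 2) := by
      intro k
      show eval p (step (q k) i) = _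
      simp [step]
    simp_rw [e]
    have t1 := tendsto_Lf (Good.q i) (p ^ 2) hp2
    have t2 := tendsto_Lf (Good.q (i + 1)) p hp
    have t3 := tendsto_Lf (Good.q i) p hp
    exact ((t1.sub ((t2.const_add 1).const_mul (p i))).sub (t3.pow 2)).const_mul (1 / 2)
  have := tendsto_nhds_unique h1 h2
  linear_combination 2 * this

lemma h_small (i : Fin 3) (p : Fin 3 → ℝ) (θ : ℝ) (hθ0 : 0 ≤ θ) (hθ : θ ≤ 1)
    (hp : ∀ i, |p i| ≤ θ * (1 / 8)) : |h i p| ≤ θ / 4 := by
  have hp' : ∀ i, |p i| ≤ 1 / 8 := fun i => (hp i).trans (by nlinarith)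
  have h1 := (tendsto_Lf (Good.q i) p hp').abs
  apply le_of_tendsto h1
  filter_upwards with k
  have := abs_eval_le_of_small hθ0 hθ (by norm_num : (0 : ℝ) ≤ 1 / 8) (q k i) (coeff_zero_q k i)
    p hp
  have h2 := nrm_q k i
  nlinarith

/-- the monomial family attached to a sequence -/
noncomputable def fam (A : ℕ → MvPolynomial (Fin 3) ℝ) (e : ℕ × (Fin 3 →₀ ℕ)) : ℝ :=
  (Dif A e.1).coeff e.2

lemma nrm_eq_tsum (ρ : ℝ) (P : MvPolynomial (Fin 3) ℝ) :
    HasSum (fun κ => |P.coeff κ| * ρ ^ κ.degree) (nrm ρ P) := by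
  unfold nrm
  apply hasSum_sum_of_ne_finset_zero
  intro κ hκ
  rw [notMem_support_iff] at hκ
  rw [hκ]; simp

lemma summable_fam {A : ℕ → MvPolynomial (Fin 3) ℝ} (hA : Good A) :
    Summable (fun e : ℕ × (Fin 3 →₀ ℕ) => |fam A e| * (1 / 8) ^ e.2.degree) := by
  rw [summable_prod_of_nonneg]
  · constructor
    · intro k
      exact (nrm_eq_tsum (1 / 8) (Dif A k)).summable
    · have : ∀ k, ∑' κ, |fam A (k, κ)| * (1 / 8) ^ (κ : Fin 3 →₀ ℕ).degree =
          nrm (1 / 8) (Dif A k) := fun k => (nrm_eq_tsum (1 / 8) (Dif A k)).tsum_eq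
      simp_rw [this]
      exact summable_nrm_Dif hA
  · intro e
    positivity

lemma abs_prod_le (p : Fin 3 → ℝ) (hp : ∀ i, |p i| ≤ 1 / 8) (κ : Fin 3 →₀ ℕ) :
    |∏ i, p i ^ κ i| ≤ (1 / 8) ^ κ.degree := by
  rw [Finset.abs_prod, Finsupp.degree_eq_sum, ← Finset.prod_pow_eq_pow_sum]
  apply Finset.prod_le_prod
  · intro i _; exact abs_nonneg _
  · intro i _
    rw [abs_pow]
    exact pow_le_pow_left₀ (abs_nonneg _) (hp i) _

lemma Lf_eq_tsum {A : ℕ → MvPolynomial (Fin 3) ℝ} (hA : Good A) (p : Fin 3 → ℝ)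
    (hp : ∀ i, |p i| ≤ 1 / 8) :
    Lf A p = ∑' e : ℕ × (Fin 3 →₀ ℕ), fam A e * ∏ i, p i ^ e.2 i := by
  have hs : Summable (fun e : ℕ × (Fin 3 →₀ ℕ) => fam A e * ∏ i, p i ^ e.2 i) := by
    apply Summable.of_norm_bounded (summable_fam hA)
    intro e
    rw [Real.norm_eq_abs, abs_mul]
    exact mul_le_mul_of_nonneg_left (abs_prod_le p hp _) (abs_nonneg _)
  rw [hs.tsum_prod]
  unfold Lf
  congr 1
  funext k
  rw [eval_eq']
  symm
  apply tsum_eq_sum
  intro κ hκ
  rw [notMem_support_iff] at hκ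
  simp [fam, hκ]





/-- The map on real points. -/
def Phi (v : Fin 3 → ℝ) : Fin 3 → ℝ := fun i => v i ^ 2 + v (i + 1)

lemma Phi_pos {v : Fin 3 → ℝ} (hv : ∀ i, 0 < v i) : ∀ i, 0 < Phi v i := by
  intro i
  unfold Phi
  have := hv i
  have := hv (i + 1)
  positivity

lemma iter_pos {v : Fin 3 → ℝ} (hv : ∀ i, 0 < v i) (n : ℕ) : ∀ i, 0 < Phi^[n] v i := by
  induction n with
  | zero => simpa using hv
  | succ n ih => rw [Function.iterate_succ_apply']; exact Phi_pos ih

/-- ratios -/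
noncomputable def rr (v : Fin 3 → ℝ) (i : Fin 3) : ℝ := v (i + 1) / v i ^ 2

lemma rr_pos {v : Fin 3 → ℝ} (hv : ∀ i, 0 < v i) (i : Fin 3) : 0 < rr v i := by
  unfold rr
  have := hv i
  have := hv (i + 1)
  positivity

lemma Phi_eq {v : Fin 3 → ℝ} (hv : ∀ i, 0 < v i) (i : Fin 3) :
    Phi v i = v i ^ 2 * (1 + rr v i) := by
  unfold Phi rr
  have := (hv i).ne'
  field_simp

lemma rr_Phi {v : Fin 3 → ℝ} (hv : ∀ i, 0 < v i) (i : Fin 3) :
    rr (Phi v) i = rr v i ^ 2 * (1 + rr v (i + 1)) / (1 + rr v i) ^ 2 := by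
  have h0 := hv i
  have h1 := rr_pos hv i
  have h2 : rr (Phi v) i = Phi v (i + 1) / Phi v i ^ 2 := rfl
  rw [h2, Phi_eq hv, Phi_eq hv]
  have h3 : v (i + 1) = rr v i * v i ^ 2 := by
    unfold rr; field_simp
  conv_lhs => rw [h3]
  have h4 : (1 + rr v i) ≠ 0 := by positivity
  field_simp

lemma rr_Phi_le {v : Fin 3 → ℝ} (hv : ∀ i, 0 < v i) {M : ℝ}
    (hM : ∀ i, rr v i ≤ M) (i : Fin 3) : rr (Phi v) i ≤ M ^ 2 / (1 + M) := by
  rw [rr_Phi hv]
  have h1 := rr_pos hv i
  have h2 := rr_pos hv (i + 1)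
  have hM0 : 0 < M := h1.trans_le (hM i)
  rw [div_le_div_iff₀ (by positivity) (by positivity)]
  have e1 : rr v i * (1 + M) ≤ M * (1 + rr v i) := by nlinarith [hM i]
  have e2 : (rr v i * (1 + M)) ^ 2 ≤ (M * (1 + rr v i)) ^ 2 :=
    pow_le_pow_left₀ (by positivity) e1 2
  have e3 : 1 + rr v (i + 1) ≤ 1 + M := by linarith [hM (i + 1)]
  calc rr v i ^ 2 * (1 + rr v (i + 1)) * (1 + M) ≤ rr v i ^ 2 * (1 + M) * (1 + M) := by
        apply mul_le_mul_of_nonneg_right _ (by positivity)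
        apply mul_le_mul_of_nonneg_left e3 (by positivity)
    _ = (rr v i * (1 + M)) ^ 2 := by ring
    _ ≤ (M * (1 + rr v i)) ^ 2 := e2
    _ = M ^ 2 * (1 + rr v i) ^ 2 := by ring

section orbit

variable {v : Fin 3 → ℝ} (hv : ∀ i, 0 < v i)

/-- the bounding sequence -/
noncomputable def MM (M : ℝ) : ℕ → ℝ
  | 0 => M
  | n + 1 => MM M n ^ 2 / (1 + MM M n)

lemma MM_pos {M : ℝ} (hM : 0 < M) (n : ℕ) : 0 < MM M n := by
  induction n with
  | zero => exact hM
  | succ n ih => simp only [MM]; positivity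

lemma MM_le {M : ℝ} (hM : 0 < M) (n : ℕ) : MM M (n + 1) ≤ MM M n := by
  have := MM_pos hM n
  simp only [MM]
  rw [div_le_iff₀ (by positivity)]
  nlinarith

lemma MM_le_M {M : ℝ} (hM : 0 < M) (n : ℕ) : MM M n ≤ M := by
  induction n with
  | zero => exact le_rfl
  | succ n ih => exact (MM_le hM n).trans ih

lemma MM_geom {M : ℝ} (hM : 0 < M) (n : ℕ) : MM M n ≤ (M / (1 + M)) ^ n * M := by
  induction n with
  | zero => simp [MM]
  | succ n ih =>
    have h1 := MM_pos hM n
    have h2 := MM_le_M hM n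
    have h3 : MM M (n + 1) ≤ (M / (1 + M)) * MM M n := by
      simp only [MM]
      rw [div_le_iff₀ (by positivity), div_mul_eq_mul_div, div_mul_eq_mul_div,
        le_div_iff₀ (by positivity)]
      nlinarith
    calc MM M (n + 1) ≤ (M / (1 + M)) * MM M n := h3
      _ ≤ (M / (1 + M)) * ((M / (1 + M)) ^ n * M) :=
        mul_le_mul_of_nonneg_left ih (by positivity)
      _ = _ := by ring

lemma MM_tendsto {M : ℝ} (hM : 0 < M) : Tendsto (MM M) atTop (𝓝 0) := by
  have hlt : M / (1 + M) < 1 := by rw [div_lt_one (by positivity)]; linarith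
  have h1 : Tendsto (fun n => (M / (1 + M)) ^ n * M) atTop (𝓝 0) := by
    simpa using (tendsto_pow_atTop_nhds_zero_of_lt_one (by positivity) hlt).mul_const M
  exact squeeze_zero (fun n => (MM_pos hM n).le) (MM_geom hM) h1

include hv in
lemma exists_M : ∃ M, 0 < M ∧ ∀ n i, rr (Phi^[n] v) i ≤ MM M n := by
  refine ⟨rr v 0 + rr v 1 + rr v 2, ?_, ?_⟩
  · have := rr_pos hv 0
    have := rr_pos hv 1
    have := rr_pos hv 2
    positivity
  · intro n
    induction n with
    | zero =>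
      intro i
      have h0 := rr_pos hv 0
      have h1 := rr_pos hv 1
      have h2 := rr_pos hv 2
      simp only [Function.iterate_zero, id, MM]
      fin_cases i <;> simp <;> linarith
    | succ n ih =>
      intro i
      rw [Function.iterate_succ_apply']
      exact rr_Phi_le (iter_pos hv n) ih i

include hv in
/-- The growth exponents. -/
lemma exists_A : ∃ (A : Fin 3 → ℝ) (M : ℝ), 0 < M ∧ (∀ n i, rr (Phi^[n] v) i ≤ MM M n) ∧
    ∀ n i, Real.log (Phi^[n] v i) ≤ 2 ^ n * A i ∧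
      2 ^ n * A i ≤ Real.log (Phi^[n] v i) + MM M n := by
  obtain ⟨M, hM, hr⟩ := exists_M hv
  -- ell
  let ell : Fin 3 → ℕ → ℝ := fun i n => Real.log (Phi^[n] v i) / 2 ^ n
  have hstep : ∀ i n, ell i n ≤ ell i (n + 1) ∧
      ell i (n + 1) + MM M (n + 1) / 2 ^ (n + 1) ≤ ell i n + MM M n / 2 ^ n := by
    intro i n
    have hp := iter_pos hv n
    have h1 := rr_pos hp i
    have hlog : Real.log (Phi^[n + 1] v i) =
        2 * Real.log (Phi^[n] v i) + Real.log (1 + rr (Phi^[n] v) i) := by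
      rw [Function.iterate_succ_apply', Phi_eq hp, Real.log_mul (by have := hp i; positivity)
        (by positivity), Real.log_pow]
      push_cast; ring
    have h2 : 0 ≤ Real.log (1 + rr (Phi^[n] v) i) := Real.log_nonneg (by linarith)
    have h3 : Real.log (1 + rr (Phi^[n] v) i) ≤ MM M n := by
      have := Real.log_le_sub_one_of_pos (by linarith : 0 < 1 + rr (Phi^[n] v) i)
      linarith [hr n i]
    have h4 := MM_le hM n
    simp only [ell]
    rw [hlog]
    have h2n : (0 : ℝ) < 2 ^ n := by positivity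
    constructor
    · rw [pow_succ, div_le_div_iff₀ h2n (by positivity)]
      nlinarith
    · rw [← add_div, ← add_div, pow_succ, div_le_div_iff₀ (by positivity) h2n]
      nlinarith
  have hmono : ∀ i, Monotone (ell i) := fun i => monotone_nat_of_le_succ (fun n => (hstep i n).1)
  have hanti : ∀ i, Antitone (fun n => ell i n + MM M n / 2 ^ n) :=
    fun i => antitone_nat_of_succ_le (fun n => (hstep i n).2)
  have hle : ∀ i m n, ell i m ≤ ell i n + MM M n / 2 ^ n := by
    intro i m n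
    have hpos : ∀ k, 0 ≤ MM M k / 2 ^ k := fun k => by
      have := MM_pos hM k
      positivity
    rcases le_total m n with h | h
    · linarith [hmono i h, hpos n]
    · have := hanti i h
      simp only at this
      linarith [hpos m]
  refine ⟨fun i => ⨆ n, ell i n, M, hM, hr, ?_⟩
  intro n i
  have hbdd : BddAbove (Set.range (ell i)) := ⟨ell i n + MM M n / 2 ^ n, by
    rintro _ ⟨m, rfl⟩; exact hle i m n⟩
  have h2n : (0 : ℝ) < 2 ^ n := by positivity
  constructor
  · have h1 : ell i n ≤ ⨆ n, ell i n := le_ciSup hbdd n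
    have h2 : ell i n * 2 ^ n = Real.log (Phi^[n] v i) := by
      simp only [ell]; field_simp
    rw [← h2]
    nlinarith
  · have h1 : (⨆ n, ell i n) ≤ ell i n + MM M n / 2 ^ n := ciSup_le (fun m => hle i m n)
    have h2 : (ell i n + MM M n / 2 ^ n) * 2 ^ n = Real.log (Phi^[n] v i) + MM M n := by
      simp only [ell]; field_simp
    rw [← h2]
    nlinarith

end orbit

section hat

variable (A : Fin 3 → ℝ)

/-- `U_n = exp(2^n A)` -/
noncomputable def UU (n : ℕ) (i : Fin 3) : ℝ := Real.exp (2 ^ n * A i)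
/-- the exponents of the small parameters -/
def BB (i : Fin 3) : ℝ := A (i + 1) - 2 * A i
/-- the small parameters -/
noncomputable def pp (n : ℕ) (i : Fin 3) : ℝ := Real.exp (2 ^ n * BB A i)
/-- The model orbit -/
noncomputable def vh (n : ℕ) (i : Fin 3) : ℝ := UU A n i * (1 + h i (pp A n))

lemma UU_succ (n : ℕ) (i : Fin 3) : UU A (n + 1) i = UU A n i ^ 2 := by
  unfold UU
  rw [← Real.exp_nat_mul]; congr 1; push_cast; ring

lemma pp_succ (n : ℕ) : pp A (n + 1) = pp A n ^ 2 := by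
  funext i
  unfold pp
  rw [Pi.pow_apply, ← Real.exp_nat_mul]; congr 1; push_cast; ring

lemma pp_mul (n : ℕ) (i : Fin 3) : UU A n i ^ 2 * pp A n i = UU A n (i + 1) := by
  unfold UU pp BB
  rw [← Real.exp_nat_mul, ← Real.exp_add]; congr 1; push_cast; ring

lemma pp_pos (n : ℕ) (i : Fin 3) : 0 < pp A n i := Real.exp_pos _
lemma UU_pos (n : ℕ) (i : Fin 3) : 0 < UU A n i := Real.exp_pos _

lemma vh_succ (n : ℕ) (hp : ∀ i, |pp A n i| ≤ 1 / 8) (i : Fin 3) :
    vh A (n + 1) i = Phi (vh A n) i := by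
  have e := pp_mul A n i
  unfold vh Phi
  beta_reduce
  rw [UU_succ, pp_succ, ← h_eq i (pp A n) hp, ← e]
  ring

lemma pp_tendsto (hB : ∀ i, BB A i < 0) (i : Fin 3) :
    Tendsto (fun n => pp A n i) atTop (𝓝 0) := by
  unfold pp
  apply Real.tendsto_exp_atBot.comp
  exact (tendsto_pow_atTop_atTop_of_one_lt (by norm_num : (1 : ℝ) < 2)).atTop_mul_const_of_neg
    (hB i)

lemma pp_eventually_small (hB : ∀ i, BB A i < 0) {ε : ℝ} (hε : 0 < ε) :
    ∀ᶠ n in atTop, ∀ i, |pp A n i| ≤ ε := by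
  rw [eventually_all]
  intro i
  have := (pp_tendsto A hB i).abs
  rw [abs_zero] at this
  exact this.eventually (ge_mem_nhds hε) 

lemma h_tendsto (hB : ∀ i, BB A i < 0) (i : Fin 3) :
    Tendsto (fun n => h i (pp A n)) atTop (𝓝 0) := by
  rw [Metric.tendsto_atTop]
  intro ε hε
  obtain ⟨N, hN⟩ := eventually_atTop.mp
    (pp_eventually_small A hB (ε := (min ε 1) * (1 / 8)) (by positivity))
  refine ⟨N, fun n hn => ?_⟩
  have := h_small i (pp A n) (min ε 1) (by positivity) (min_le_right _ _) (hN n hn)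
  rw [Real.dist_eq, sub_zero]
  have h1 : min ε 1 ≤ ε := min_le_left _ _
  have h2 : 0 < min ε 1 := by positivity
  linarith

end hat

/-- Uniqueness: the orbit is eventually equal to the model orbit. -/
lemma eventually_eq_vh {v : Fin 3 → ℝ} (hv : ∀ i, 0 < v i) :
    ∃ A : Fin 3 → ℝ, (∀ i, BB A i < 0) ∧ ∃ n1 : ℕ, (∀ n, n1 ≤ n → ∀ i, |pp A n i| ≤ 1 / 8) ∧
      ∀ n, n1 ≤ n → Phi^[n] v = vh A n := by
  obtain ⟨A, M, hM, hr, hA⟩ := exists_A hv
  -- ratio to U
  have hratio : ∀ n i, Real.exp (-(MM M n)) ≤ Phi^[n] v i / UU A n i ∧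
      Phi^[n] v i / UU A n i ≤ 1 := by
    intro n i
    have hp := iter_pos hv n i
    have h1 := hA n i
    have h2 : Phi^[n] v i = Real.exp (Real.log (Phi^[n] v i)) := (Real.exp_log hp).symm
    rw [h2, UU, ← Real.exp_sub]
    constructor
    · apply Real.exp_le_exp.mpr; linarith [h1.2]
    · rw [← Real.exp_zero]; apply Real.exp_le_exp.mpr; linarith [h1.1]
  have hpp : ∀ n i, pp A n i ≤ MM M n * Real.exp (MM M n) := by
    intro n i
    have hp := iter_pos hv n
    have h1 := (hratio n (i + 1)).1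
    have h2 := (hratio n i).2
    have hU := UU_pos A n i
    have hU' := UU_pos A n (i + 1)
    have h3 : pp A n i = UU A n (i + 1) / UU A n i ^ 2 := by
      rw [← pp_mul A n i]; field_simp
    have h4 : UU A n (i + 1) ≤ Real.exp (MM M n) * Phi^[n] v (i + 1) := by
      rw [le_div_iff₀ hU'] at h1
      have : Real.exp (MM M n) * (Real.exp (-(MM M n)) * UU A n (i + 1)) = UU A n (i + 1) := by
        rw [← mul_assoc, ← Real.exp_add]; simp
      rw [← this]
      exact mul_le_mul_of_nonneg_left h1 (Real.exp_pos _).le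
    have h5 : Phi^[n] v i ≤ UU A n i := by
      rw [div_le_one hU] at h2; exact h2
    have h6 : Phi^[n] v i ^ 2 ≤ UU A n i ^ 2 := pow_le_pow_left₀ (hp i).le h5 2
    have h7 := hr n i
    unfold rr at h7
    rw [h3]
    calc UU A n (i + 1) / UU A n i ^ 2 ≤ (Real.exp (MM M n) * Phi^[n] v (i + 1)) /
          Phi^[n] v i ^ 2 := by
          apply div_le_div₀
          · have := hp (i + 1); positivity
          · exact h4
          · have := hp i; positivity
          · exact h6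
      _ = (Phi^[n] v (i + 1) / Phi^[n] v i ^ 2) * Real.exp (MM M n) := by ring
      _ ≤ _ := mul_le_mul_of_nonneg_right h7 (Real.exp_pos _).le
  have hMt := MM_tendsto hM
  have hMe : Tendsto (fun n => Real.exp (MM M n)) atTop (𝓝 1) := by
    have := (Real.continuous_exp.tendsto 0).comp hMt
    simpa [Function.comp_def] using this
  have hppt : ∀ i, Tendsto (fun n => pp A n i) atTop (𝓝 0) := by
    intro i
    have h1 : Tendsto (fun n => MM M n * Real.exp (MM M n)) atTop (𝓝 0) := by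
      simpa using hMt.mul hMe
    exact squeeze_zero (fun n => (pp_pos A n i).le) (fun n => hpp n i) h1
  have hB : ∀ i, BB A i < 0 := by
    intro i
    by_contra hcon
    push Not at hcon
    have h1 : ∀ n, 1 ≤ pp A n i := by
      intro n
      unfold pp
      rw [← Real.exp_zero]
      apply Real.exp_le_exp.mpr
      positivity
    have h2 : (1 : ℝ) ≤ 0 := ge_of_tendsto' (hppt i) h1
    linarith
  refine ⟨A, hB, ?_⟩
  -- the ratio to the model orbit tends to one
  have hg : ∀ i, Tendsto (fun n => Phi^[n] v i / vh A n i) atTop (𝓝 1) := by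
    intro i
    have h1 : Tendsto (fun n => Phi^[n] v i / UU A n i) atTop (𝓝 1) := by
      have hlow : Tendsto (fun n => Real.exp (-(MM M n))) atTop (𝓝 1) := by
        have := (Real.continuous_exp.tendsto (-0)).comp hMt.neg
        simpa [Function.comp_def] using this
      exact tendsto_of_tendsto_of_tendsto_of_le_of_le hlow tendsto_const_nhds
        (fun n => (hratio n i).1) (fun n => (hratio n i).2)
    have h2 : Tendsto (fun n => 1 + h i (pp A n)) atTop (𝓝 1) := by
      simpa using (h_tendsto A hB i).const_add 1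
    have h3 := h1.div h2 one_ne_zero
    rw [div_one] at h3
    refine h3.congr ?_
    intro n
    unfold vh
    simp only [Pi.div_apply]
    rw [div_div]
  have hrh : ∀ i, Tendsto (fun n => vh A n (i + 1) / vh A n i ^ 2) atTop (𝓝 0) := by
    intro i
    have h2 : ∀ i, Tendsto (fun n => 1 + h i (pp A n)) atTop (𝓝 1) := by
      intro i
      simpa using (h_tendsto A hB i).const_add 1
    have h3 : Tendsto (fun n => pp A n i * (1 + h (i + 1) (pp A n)) / (1 + h i (pp A n)) ^ 2)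
        atTop (𝓝 (0 * 1 / 1 ^ 2)) := ((hppt i).mul (h2 (i + 1))).div ((h2 i).pow 2) (by norm_num)
    simp only [zero_mul, zero_div] at h3
    refine h3.congr ?_
    intro n
    have e := pp_mul A n i
    have hU := (UU_pos A n i).ne'
    unfold vh
    rw [← e, mul_pow, mul_assoc, mul_div_mul_left _ _ (pow_ne_zero 2 hU)]
  -- choose n1
  have ev : ∀ᶠ n in atTop, (∀ i, |pp A n i| ≤ 1 / 8) ∧
      (∀ i, |Phi^[n] v i / vh A n i - 1| ≤ 1 / 10) ∧
      (∀ i, |vh A n (i + 1) / vh A n i ^ 2| ≤ 1 / 10) ∧ (∀ i, 0 < vh A n i) := by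
    refine (pp_eventually_small A hB (by norm_num)).and (Eventually.and ?_ (Eventually.and ?_ ?_))
    · rw [eventually_all]; intro i
      have h1 : Tendsto (fun n => |Phi^[n] v i / vh A n i - 1|) atTop (𝓝 0) := by
        simpa using ((hg i).sub_const 1).abs
      exact h1.eventually (ge_mem_nhds (by norm_num))
    · rw [eventually_all]; intro i
      have h1 : Tendsto (fun n => |vh A n (i + 1) / vh A n i ^ 2|) atTop (𝓝 0) := by
        simpa using (hrh i).abs
      exact h1.eventually (ge_mem_nhds (by norm_num))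
    · rw [eventually_all]; intro i
      have h1 : ∀ᶠ n in atTop, 0 < 1 + h i (pp A n) := by
        have h2 : Tendsto (fun n => 1 + h i (pp A n)) atTop (𝓝 1) := by
          simpa using (h_tendsto A hB i).const_add 1
        exact h2.eventually (lt_mem_nhds (by norm_num))
      filter_upwards [h1] with n hn
      unfold vh
      have := UU_pos A n i
      positivity
  obtain ⟨n1, hn1⟩ := eventually_atTop.mp ev
  refine ⟨n1, fun n hn => (hn1 n hn).1, ?_⟩
  -- recursion for the ratio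
  set g : ℕ → Fin 3 → ℝ := fun n i => Phi^[n] v i / vh A n i with hgdef
  have hrec : ∀ n, n1 ≤ n → ∀ i, g (n + 1) i - 1 =
      ((g n i - 1) * (g n i + 1) + (g n (i + 1) - 1) * (vh A n (i + 1) / vh A n i ^ 2)) /
        (1 + vh A n (i + 1) / vh A n i ^ 2) := by
    intro n hn i
    have hp := (hn1 n hn).2.2.2
    have h1 := hp i
    have h2 := hp (i + 1)
    have e1 : Phi^[n + 1] v i = Phi^[n] v i ^ 2 + Phi^[n] v (i + 1) := by
      rw [Function.iterate_succ_apply']; rfl
    have e2 : vh A (n + 1) i = vh A n i ^ 2 + vh A n (i + 1) := by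
      rw [vh_succ A n (hn1 n hn).1 i]; rfl
    simp only [hgdef]
    rw [e1, e2]
    have h3 : vh A n i ^ 2 + vh A n (i + 1) ≠ 0 := by positivity
    have h4 : 1 + vh A n (i + 1) / vh A n i ^ 2 ≠ 0 := by positivity
    field_simp
    ring
  -- growth of the error
  have hgrow : ∀ n, n1 ≤ n → ∀ e : ℝ, (∃ i, e ≤ |g n i - 1|) → (∀ i, |g n i - 1| ≤ 1 / 10) →
      0 ≤ e → (∃ i, (3 / 2) * e ≤ |g (n + 1) i - 1|) := by
    intro n hn e hex hall he
    obtain ⟨i, hi, hmax⟩ : ∃ i, e ≤ |g n i - 1| ∧ ∀ j, |g n j - 1| ≤ |g n i - 1| := by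
      obtain ⟨j, hj⟩ := Finite.exists_max (fun i => |g n i - 1|)
      obtain ⟨i, hi⟩ := hex
      exact ⟨j, hi.trans (hj i), hj⟩
    refine ⟨i, ?_⟩
    rw [hrec n hn i]
    have h1 := (hn1 n hn).2.2.1 i
    have hp := (hn1 n hn).2.2.2
    have h2 : 0 < vh A n (i + 1) / vh A n i ^ 2 := by
      have := hp i; have := hp (i + 1); positivity
    rw [abs_of_pos h2] at h1
    set ρ := vh A n (i + 1) / vh A n i ^ 2 with hρ
    rw [abs_div, abs_of_pos (by linarith : 0 < 1 + ρ), le_div_iff₀ (by linarith)]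
    have h3 : |g n i - 1| * |g n i + 1| - |g n (i + 1) - 1| * ρ ≤
        |(g n i - 1) * (g n i + 1) + (g n (i + 1) - 1) * ρ| := by
      have := abs_sub_abs_le_abs_sub ((g n i - 1) * (g n i + 1)) (-((g n (i + 1) - 1) * ρ))
      rw [sub_neg_eq_add, abs_neg, abs_mul, abs_mul, abs_of_pos h2] at this
      exact this
    have h4 : 19 / 10 ≤ |g n i + 1| := by
      have h5 := hall i
      rw [abs_le] at h5
      rw [abs_of_pos (by linarith)]
      linarith
    have h5 := hmax (i + 1)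
    have h6 := abs_nonneg (g n i - 1)
    have h7 := abs_nonneg (g n (i + 1) - 1)
    have h8 : |g n i - 1| * (19 / 10) ≤ |g n i - 1| * |g n i + 1| :=
      mul_le_mul_of_nonneg_left h4 h6
    have h9 : |g n (i + 1) - 1| * ρ ≤ |g n i - 1| * (1 / 10) :=
      mul_le_mul h5 h1 h2.le h6
    nlinarith
  have hzero : ∀ n, n1 ≤ n → ∀ i, |g n i - 1| = 0 := by
    intro n hn i
    by_contra hne
    have hpos : 0 < |g n i - 1| := lt_of_le_of_ne (abs_nonneg _) (Ne.symm hne)
    have hind : ∀ k : ℕ, ∃ j, (3 / 2) ^ k * |g n i - 1| ≤ |g (n + k) j - 1| := by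
      intro k
      induction k with
      | zero => exact ⟨i, by simp⟩
      | succ k ih =>
        have := hgrow (n + k) (by omega) _ ih (hn1 (n + k) (by omega)).2.1 (by positivity)
        obtain ⟨j, hj⟩ := this
        refine ⟨j, ?_⟩
        rw [← add_assoc]
        calc (3 / 2) ^ (k + 1) * |g n i - 1| = 3 / 2 * ((3 / 2) ^ k * |g n i - 1|) := by ring
          _ ≤ _ := hj
    obtain ⟨k, hk⟩ := pow_unbounded_of_one_lt (1 / |g n i - 1|) (by norm_num : (1 : ℝ) < 3 / 2)
    obtain ⟨j, hj⟩ := hind k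
    have h1 := (hn1 (n + k) (by omega)).2.1 j
    rw [div_lt_iff₀ hpos] at hk
    have : |g (n + k) j - 1| ≤ 1 / 10 := h1
    linarith
  intro n hn
  funext i
  have h1 := hzero n hn i
  rw [abs_eq_zero, sub_eq_zero] at h1
  have hp := (hn1 n hn).2.2.2 i
  simp only [hgdef] at h1
  rw [div_eq_one_iff_eq hp.ne'] at h1
  exact h1





/-- the product sequence attached to a multi-index -/
noncomputable def Aseq (μ : Fin 3 →₀ ℕ) (k : ℕ) : MvPolynomial (Fin 3) ℝ :=
  (1 + q k 0) ^ μ 0 * (1 + q k 1) ^ μ 1 * (1 + q k 2) ^ μ 2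

lemma good_one_add (i : Fin 3) : Good (fun k => 1 + q k i) := (Good.const 1).add (Good.q i)

lemma good_Aseq (μ : Fin 3 →₀ ℕ) : Good (Aseq μ) :=
  (((good_one_add 0).pow (μ 0)).mul ((good_one_add 1).pow (μ 1))).mul
    ((good_one_add 2).pow (μ 2))

lemma Lf_Aseq (μ : Fin 3 →₀ ℕ) (p : Fin 3 → ℝ) (hp : ∀ i, |p i| ≤ 1 / 8) :
    Lf (Aseq μ) p = ∏ i, (1 + h i p) ^ μ i := by
  unfold Aseq
  rw [Lf_mul (((good_one_add 0).pow (μ 0)).mul ((good_one_add 1).pow (μ 1)))
    ((good_one_add 2).pow (μ 2)) p hp,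
    Lf_mul ((good_one_add 0).pow (μ 0)) ((good_one_add 1).pow (μ 1)) p hp,
    Lf_pow (good_one_add 0) _ p hp, Lf_pow (good_one_add 1) _ p hp,
    Lf_pow (good_one_add 2) _ p hp, Lf_one_add_q 0 p hp, Lf_one_add_q 1 p hp,
    Lf_one_add_q 2 p hp, Fin.prod_univ_three]
  rfl

section main

variable (A : Fin 3 → ℝ) (F : MvPolynomial (Fin 3) ℂ)

/-- index type -/
abbrev EE : Type := F.support × (ℕ × (Fin 3 →₀ ℕ))

/-- shift making all exponents nonpositive -/
noncomputable def TT : ℝ := ∑ μ ∈ F.support, |∑ i, (μ i : ℝ) * A i|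

/-- coefficients -/
noncomputable def gam (e : EE F) : ℂ := F.coeff e.1.1 * (fam (Aseq e.1.1) e.2 : ℂ)

/-- exponents -/
noncomputable def tau (e : EE F) : ℝ :=
  (∑ i, (e.1.1 i : ℝ) * A i) - TT A F + ∑ i, (e.2.2 i : ℝ) * BB A i

lemma tau_nonpos (hB : ∀ i, BB A i < 0) (e : EE F) : tau A F e ≤ 0 := by
  unfold tau
  have h1 : ∑ i, (e.1.1 i : ℝ) * A i ≤ TT A F := by
    refine (le_abs_self _).trans ?_
    exact Finset.single_le_sum (f := fun μ : Fin 3 →₀ ℕ => |∑ i, (μ i : ℝ) * A i|)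
      (fun _ _ => abs_nonneg _) e.1.2
  have h2 : ∑ i, (e.2.2 i : ℝ) * BB A i ≤ 0 := by
    apply Finset.sum_nonpos
    intro i _
    exact mul_nonpos_of_nonneg_of_nonpos (by positivity) (hB i).le
  linarith

lemma finite_values (hB : ∀ i, BB A i < 0) (θ : ℝ) :
    (Set.range (tau A F) ∩ Set.Ici θ).Finite := by
  -- b > 0 with BB i ≤ -b
  obtain ⟨b, hb, hbB⟩ : ∃ b : ℝ, 0 < b ∧ ∀ i, BB A i ≤ -b := by
    obtain ⟨j, hj⟩ := Finite.exists_max (fun i => BB A i)
    exact ⟨-BB A j, by linarith [hB j], fun i => by simpa using hj i⟩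
  obtain ⟨N, hN⟩ := exists_nat_ge (-θ / b)
  have hfin : ((Set.univ : Set F.support) ×ˢ {κ : Fin 3 →₀ ℕ | κ.degree ≤ N}).Finite :=
    Set.finite_univ.prod (Finsupp.finite_of_degree_le N)
  apply (hfin.image (fun e : F.support × (Fin 3 →₀ ℕ) =>
    (∑ i, (e.1.1 i : ℝ) * A i) - TT A F + ∑ i, (e.2 i : ℝ) * BB A i)).subset
  rintro t ⟨⟨e, rfl⟩, ht⟩
  refine ⟨(e.1, e.2.2), ⟨Set.mem_univ _, ?_⟩, rfl⟩
  have ht' : θ ≤ tau A F e := ht
  have h1 : ∑ i, (e.1.1 i : ℝ) * A i ≤ TT A F := by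
    refine (le_abs_self _).trans ?_
    exact Finset.single_le_sum (f := fun μ : Fin 3 →₀ ℕ => |∑ i, (μ i : ℝ) * A i|)
      (fun _ _ => abs_nonneg _) e.1.2
  have h2 : ∑ i, (e.2.2 i : ℝ) * BB A i ≤ -b * (e.2.2.degree : ℝ) := by
    rw [Finsupp.degree_eq_sum]
    push_cast
    rw [Finset.mul_sum]
    apply Finset.sum_le_sum
    intro i _
    rw [mul_comm]
    exact mul_le_mul_of_nonneg_right (hbB i) (by positivity)
  unfold tau at ht'
  have h3 : b * (e.2.2.degree : ℝ) ≤ -θ := by linarith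
  have h4 : (e.2.2.degree : ℝ) ≤ -θ / b := by
    rw [le_div_iff₀ hb]; linarith
  have h5 : (e.2.2.degree : ℝ) ≤ N := h4.trans hN
  show e.2.2.degree ≤ N
  exact_mod_cast h5

lemma exp_sum_mul (s : ℝ) (c : Fin 3 → ℝ) (κ : Fin 3 →₀ ℕ) :
    Real.exp (s * ∑ i, (κ i : ℝ) * c i) = ∏ i, Real.exp (s * c i) ^ κ i := by
  rw [Finset.mul_sum, Real.exp_sum]
  apply Finset.prod_congr rfl
  intro i _
  rw [← Real.exp_nat_mul]
  congr 1; ring

lemma exp_tau (n : ℕ) (e : EE F) : Real.exp (2 ^ n * tau A F e) =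
    Real.exp (-(2 ^ n * TT A F)) * (∏ i, UU A n i ^ e.1.1 i) * ∏ i, pp A n i ^ e.2.2 i := by
  unfold tau UU pp
  rw [← exp_sum_mul, ← exp_sum_mul, ← Real.exp_add, ← Real.exp_add]
  congr 1; ring

lemma summable_gam (n : ℕ) (hp : ∀ i, |pp A n i| ≤ 1 / 8) :
    Summable (fun e : EE F => ‖gam F e‖ * Real.exp (2 ^ n * tau A F e)) := by
  rw [summable_prod_of_nonneg]
  · constructor
    · intro μ
      have h1 := (summable_fam (good_Aseq μ.1)).mul_left
        (‖F.coeff μ.1‖ * (Real.exp (-(2 ^ n * TT A F)) * (∏ i, UU A n i ^ μ.1 i)))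
      apply Summable.of_nonneg_of_le (fun e => by positivity) _ h1
      intro e
      rw [exp_tau]
      simp only [gam]
      rw [norm_mul, Complex.norm_real, Real.norm_eq_abs]
      have h2 := abs_prod_le (pp A n) hp e.2
      have h3 : 0 ≤ ∏ i, UU A n i ^ μ.1 i :=
        Finset.prod_nonneg fun i _ => pow_nonneg (UU_pos A n i).le _
      have h4 := le_abs_self (∏ i, pp A n i ^ e.2 i)
      have h5 : 0 ≤ ‖F.coeff μ.1‖ * (Real.exp (-(2 ^ n * TT A F)) * (∏ i, UU A n i ^ μ.1 i)) *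
          |fam (Aseq μ.1) e| := by positivity
      calc ‖F.coeff μ.1‖ * |fam (Aseq μ.1) e| * (Real.exp (-(2 ^ n * TT A F)) *
            (∏ i, UU A n i ^ μ.1 i) * ∏ i, pp A n i ^ e.2 i)
          = ‖F.coeff μ.1‖ * (Real.exp (-(2 ^ n * TT A F)) * (∏ i, UU A n i ^ μ.1 i)) *
          |fam (Aseq μ.1) e| * ∏ i, pp A n i ^ e.2 i := by ring
        _ ≤ ‖F.coeff μ.1‖ * (Real.exp (-(2 ^ n * TT A F)) * (∏ i, UU A n i ^ μ.1 i)) *
          |fam (Aseq μ.1) e| * (1 / 8) ^ e.2.degree :=
            mul_le_mul_of_nonneg_left (h4.trans h2) h5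
        _ = _ := by ring
    · exact (hasSum_fintype _).summable
  · intro e
    positivity

/-- The value of `F` along the model orbit. -/
lemma eval_vh (n : ℕ) (hp : ∀ i, |pp A n i| ≤ 1 / 8) :
    ∑' e : EE F, gam F e * (Real.exp (2 ^ n * tau A F e) : ℂ) =
      (Real.exp (-(2 ^ n * TT A F)) : ℂ) * eval (fun i => (vh A n i : ℂ)) F := by
  have hs := summable_term (summable_gam A F n hp)
  rw [hs.tsum_prod, tsum_fintype]
  have key : ∀ μ : F.support, ∑' c : ℕ × (Fin 3 →₀ ℕ), gam F (μ, c) *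
      (Real.exp (2 ^ n * tau A F (μ, c)) : ℂ) =
      (Real.exp (-(2 ^ n * TT A F)) : ℂ) * (F.coeff μ.1 * ∏ i, (vh A n i : ℂ) ^ μ.1 i) := by
    intro μ
    have h1 : ∀ c : ℕ × (Fin 3 →₀ ℕ), gam F (μ, c) *
      (Real.exp (2 ^ n * tau A F (μ, c)) : ℂ) =
      (F.coeff μ.1 * (Real.exp (-(2 ^ n * TT A F)) : ℂ) * (∏ i, UU A n i ^ μ.1 i : ℝ)) *
        ((fam (Aseq μ.1) c * ∏ i, pp A n i ^ c.2 i : ℝ) : ℂ) := by
      intro c
      rw [exp_tau]
      simp only [gam]
      push_cast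
      ring
    simp_rw [h1]
    rw [tsum_mul_left, ← Complex.ofReal_tsum, ← Lf_eq_tsum (good_Aseq μ.1) _ hp, Lf_Aseq _ _ hp]
    unfold vh
    push_cast
    simp_rw [mul_pow]
    rw [Finset.prod_mul_distrib]
    ring
  simp_rw [key]
  rw [← Finset.mul_sum, eval_eq']
  congr 1
  exact Finset.sum_coe_sort F.support (fun μ => F.coeff μ * ∏ i, (vh A n i : ℂ) ^ μ i)

end main

/-- For a positive real starting point, a polynomial that vanishes infinitely often along the
orbit vanishes at all times past a time that does not depend on the polynomial. -/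
theorem positive_case {v : Fin 3 → ℝ} (hv : ∀ i, 0 < v i) :
    ∃ n1 : ℕ, ∀ F : MvPolynomial (Fin 3) ℂ,
      (∃ᶠ n in atTop, eval (fun i => (Phi^[n] v i : ℂ)) F = 0) →
      ∀ n, n1 ≤ n → eval (fun i => (Phi^[n] v i : ℂ)) F = 0 := by
  obtain ⟨A, hB, n1, hp, heq⟩ := eventually_eq_vh hv
  refine ⟨n1, fun F hF => ?_⟩
  have hval : ∀ n, n1 ≤ n → ∑' e : EE F, gam F e * (Real.exp (2 ^ n * tau A F e) : ℂ) =
      (Real.exp (-(2 ^ n * TT A F)) : ℂ) * eval (fun i => (Phi^[n] v i : ℂ)) F := by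
    intro n hn
    rw [eval_vh A F n (hp n hn), heq n hn]
  have hdom := dominance (γ := gam F) (τ := tau A F) (t0 := 2 ^ n1)
    (summable_gam A F n1 (hp n1 le_rfl)) (tau_nonpos A F hB) (finite_values A F hB)
    (fun n => 2 ^ (n1 + n))
    (fun n => pow_le_pow_right₀ (by norm_num) (by omega))
    ((tendsto_pow_atTop_atTop_of_one_lt (by norm_num : (1 : ℝ) < 2)).comp
      (tendsto_atTop_mono (fun n => Nat.le_add_left n n1) tendsto_id))
    (by
      rw [frequently_atTop] at hF ⊢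
      intro a
      obtain ⟨b, hb, hb0⟩ := hF (n1 + a)
      refine ⟨b - n1, by omega, ?_⟩
      rw [show n1 + (b - n1) = b by omega, hval b (by omega), hb0, mul_zero])
  intro n hn
  have h1 := hdom (n - n1)
  rw [show n1 + (n - n1) = n by omega, hval n hn] at h1
  rcases mul_eq_zero.mp h1 with h2 | h2
  · exfalso
    have : Real.exp (-(2 ^ n * TT A F)) ≠ 0 := (Real.exp_pos _).ne'
    exact this (by exact_mod_cast h2)
  · exact h2





/-! ### Every real orbit becomes positive unless it is diagonal -/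

/-- The untwisted map. -/
def Th (w : Fin 3 → ℝ) : Fin 3 → ℝ := fun i => w i + w (i - 1) ^ 2

lemma Phi_eq_Th (v : Fin 3 → ℝ) (n : ℕ) (i : Fin 3) :
    Phi^[n] v i = Th^[n] v (i + n • (1 : Fin 3)) := by
  induction n generalizing i with
  | zero => simp
  | succ n ih =>
    have e1 : Phi^[n + 1] v i = Phi^[n] v i ^ 2 + Phi^[n] v (i + 1) := by
      rw [Function.iterate_succ_apply']; rfl
    have e2 : Th^[n + 1] v (i + (n + 1) • (1 : Fin 3)) =
        Th^[n] v (i + (n + 1) • (1 : Fin 3)) + Th^[n] v (i + (n + 1) • (1 : Fin 3) - 1) ^ 2 := by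
      rw [Function.iterate_succ_apply']; rfl
    have h1 : i + (n + 1) • (1 : Fin 3) - 1 = i + n • (1 : Fin 3) := by
      rw [succ_nsmul]; abel
    have h2 : i + 1 + n • (1 : Fin 3) = i + (n + 1) • (1 : Fin 3) := by
      rw [succ_nsmul]; abel
    rw [e1, e2, ih, ih, h1, h2]; ring

lemma Th_mono (w : Fin 3 → ℝ) (i : Fin 3) : Monotone (fun n => Th^[n] w i) := by
  apply monotone_nat_of_le_succ
  intro n
  rw [Function.iterate_succ_apply']
  unfold Th
  nlinarith [sq_nonneg (Th^[n] w (i - 1))]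

lemma Th_step (w : Fin 3 → ℝ) (n : ℕ) (i : Fin 3) :
    Th^[n + 1] w (i + 1) = Th^[n] w (i + 1) + Th^[n] w i ^ 2 := by
  rw [Function.iterate_succ_apply']
  show Th^[n] w (i + 1) + Th^[n] w (i + 1 - 1) ^ 2 = _
  rw [add_sub_cancel_right]

lemma next_pos (w : Fin 3 → ℝ) (m : ℕ) (j : Fin 3) (h : 0 < Th^[m] w j) :
    ∃ n, m ≤ n ∧ 0 < Th^[n] w (j + 1) := by
  set c := Th^[m] w j with hc
  have hlow : ∀ k : ℕ, Th^[m] w (j + 1) + k * c ^ 2 ≤ Th^[m + k] w (j + 1) := by
    intro k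
    induction k with
    | zero => simp
    | succ k ih =>
      rw [← add_assoc, Th_step]
      have h1 : c ≤ Th^[m + k] w j := Th_mono w j (Nat.le_add_right m k)
      have h2 : c ^ 2 ≤ Th^[m + k] w j ^ 2 := pow_le_pow_left₀ h.le h1 2
      push_cast
      linarith
  obtain ⟨k, hk⟩ := exists_nat_gt (-(Th^[m] w (j + 1)) / c ^ 2)
  refine ⟨m + k, Nat.le_add_right _ _, ?_⟩
  have h1 := hlow k
  have hc2 : 0 < c ^ 2 := by positivity
  rw [div_lt_iff₀ hc2] at hk
  linarith

lemma all_pos_of_pos (w : Fin 3 → ℝ) (m : ℕ) (j : Fin 3) (h : 0 < Th^[m] w j) :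
    ∃ n, ∀ i, 0 < Th^[n] w i := by
  obtain ⟨n1, hn1, h1⟩ := next_pos w m j h
  obtain ⟨n2, hn2, h2⟩ := next_pos w n1 (j + 1) h1
  refine ⟨n2, ?_⟩
  have e0 : 0 < Th^[n2] w j := h.trans_le (Th_mono w j (hn1.trans hn2))
  have e1 : 0 < Th^[n2] w (j + 1) := h1.trans_le (Th_mono w (j + 1) hn2)
  intro i
  have hcyc : ∀ i j : Fin 3, i = j ∨ i = j + 1 ∨ i = j + 1 + 1 := by decide
  rcases hcyc i j with rfl | rfl | rfl
  · exact e0
  · exact e1
  · exact h2

/-- the discrepancy -/
def DD (w : Fin 3 → ℝ) : ℝ := (w 0 - w 1) ^ 2 + (w 1 - w 2) ^ 2 + (w 2 - w 0) ^ 2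

lemma DD_le (w : Fin 3 → ℝ) (hw : ∀ i, w i ≤ 0) : DD w ≤ DD (Th w) := by
  have h0 := hw 0
  have h1 := hw 1
  have h2 := hw 2
  have e : DD (Th w) - DD w = 2 * ((-w 0) * (w 0 - w 1) ^ 2 + (-w 1) * (w 1 - w 2) ^ 2
      + (-w 2) * (w 2 - w 0) ^ 2) + ((w 2 ^ 2 - w 0 ^ 2) ^ 2 + (w 0 ^ 2 - w 1 ^ 2) ^ 2
      + (w 1 ^ 2 - w 2 ^ 2) ^ 2) := by
    have a0 : (0 : Fin 3) - 1 = 2 := by decide
    have a1 : (1 : Fin 3) - 1 = 0 := by decide
    have a2 : (2 : Fin 3) - 1 = 1 := by decide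
    unfold DD Th
    rw [a0, a1, a2]
    ring
  have p0 : 0 ≤ (-w 0) * (w 0 - w 1) ^ 2 := mul_nonneg (by linarith) (sq_nonneg _)
  have p1 : 0 ≤ (-w 1) * (w 1 - w 2) ^ 2 := mul_nonneg (by linarith) (sq_nonneg _)
  have p2 : 0 ≤ (-w 2) * (w 2 - w 0) ^ 2 := mul_nonneg (by linarith) (sq_nonneg _)
  have p3 : 0 ≤ (w 2 ^ 2 - w 0 ^ 2) ^ 2 + (w 0 ^ 2 - w 1 ^ 2) ^ 2 + (w 1 ^ 2 - w 2 ^ 2) ^ 2 := by
    positivity
  linarith

lemma diag_of_nonpos (w : Fin 3 → ℝ) (hw : ∀ n i, Th^[n] w i ≤ 0) : w 0 = w 1 ∧ w 1 = w 2 := by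
  -- the coordinates converge
  have hlim : ∀ i, ∃ l, Tendsto (fun n => Th^[n] w i) atTop (𝓝 l) := by
    intro i
    exact ⟨_, tendsto_atTop_ciSup (Th_mono w i) ⟨0, by rintro _ ⟨n, rfl⟩; exact hw n i⟩⟩
  have hzero : ∀ i, Tendsto (fun n => Th^[n] w i) atTop (𝓝 0) := by
    intro i
    obtain ⟨l, hl⟩ := hlim (i + 1)
    have h1 : Tendsto (fun n => Th^[n + 1] w (i + 1) - Th^[n] w (i + 1)) atTop (𝓝 (l - l)) :=
      (hl.comp (tendsto_add_atTop_nat 1)).sub hl
    rw [sub_self] at h1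
    have h2 : Tendsto (fun n => Th^[n] w i ^ 2) atTop (𝓝 0) := by
      refine h1.congr ?_
      intro n
      rw [Th_step]; ring
    have h3 := h2.sqrt
    rw [Real.sqrt_zero] at h3
    simp_rw [Real.sqrt_sq_eq_abs] at h3
    exact (tendsto_zero_iff_abs_tendsto_zero _).mpr h3
  have hD : Tendsto (fun n => DD (Th^[n] w)) atTop (𝓝 0) := by
    unfold DD
    have e := (((hzero 0).sub (hzero 1)).pow 2).add (((hzero 1).sub (hzero 2)).pow 2) |>.add
      (((hzero 2).sub (hzero 0)).pow 2)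
    simpa using e
  have hmono : Monotone (fun n => DD (Th^[n] w)) := by
    apply monotone_nat_of_le_succ
    intro n
    rw [Function.iterate_succ_apply']
    exact DD_le _ (hw n)
  have h0 : DD w ≤ 0 := by
    have := hmono.ge_of_tendsto hD 0
    simpa using this
  unfold DD at h0
  have s0 := sq_nonneg (w 0 - w 1)
  have s1 := sq_nonneg (w 1 - w 2)
  have s2 := sq_nonneg (w 2 - w 0)
  constructor
  · have : (w 0 - w 1) ^ 2 = 0 := by linarith
    have := pow_eq_zero_iff (two_ne_zero) |>.mp this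
    linarith
  · have : (w 1 - w 2) ^ 2 = 0 := by linarith
    have := pow_eq_zero_iff (two_ne_zero) |>.mp this
    linarith

lemma pos_or_diag (v : Fin 3 → ℝ) :
    (∃ n, ∀ i, 0 < Phi^[n] v i) ∨ (v 0 = v 1 ∧ v 1 = v 2) := by
  by_cases h : ∃ m j, 0 < Th^[m] v j
  · obtain ⟨m, j, h⟩ := h
    obtain ⟨n, hn⟩ := all_pos_of_pos v m j h
    left
    exact ⟨n, fun i => by rw [Phi_eq_Th]; exact hn _⟩
  · push Not at h
    exact Or.inr (diag_of_nonpos v h)

/-- All real starting points. -/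
theorem real_case (v : Fin 3 → ℝ) :
    ∃ n1 : ℕ, ∀ F : MvPolynomial (Fin 3) ℂ,
      (∃ᶠ n in atTop, eval (fun i => (Phi^[n] v i : ℂ)) F = 0) →
      ∀ n, n1 ≤ n → eval (fun i => (Phi^[n] v i : ℂ)) F = 0 := by
  rcases pos_or_diag v with ⟨m, hm⟩ | ⟨h01, h12⟩
  · obtain ⟨n1, h1⟩ := positive_case hm
    refine ⟨n1 + m, fun F hF n hn => ?_⟩
    have h2 := h1 F (by
      rw [frequently_atTop] at hF ⊢
      intro a
      obtain ⟨b, hb, hb0⟩ := hF (a + m)
      refine ⟨b - m, by omega, ?_⟩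
      rw [← Function.iterate_add_apply, show b - m + m = b by omega]
      exact hb0) (n - m) (by omega)
    rw [← Function.iterate_add_apply, show n - m + m = n by omega] at h2
    exact h2
  · -- diagonal
    let t : ℕ → ℝ := fun n => Phi^[n] v 0
    have hdiag : ∀ n, Phi^[n] v = fun _ => t n := by
      intro n
      induction n with
      | zero =>
        funext i
        simp only [Function.iterate_zero, id, t]
        fin_cases i
        · rfl
        · exact h01.symm
        · exact (h01.trans h12).symm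
      | succ n ih =>
        have : Phi^[n + 1] v = fun _ => t n ^ 2 + t n := by
          rw [Function.iterate_succ_apply', ih]; rfl
        funext i
        show Phi^[n + 1] v i = Phi^[n + 1] v 0
        rw [this]
    have hstep : ∀ n, t (n + 1) = t n ^ 2 + t n := by
      intro n
      show Phi^[n + 1] v 0 = _
      rw [Function.iterate_succ_apply', hdiag n]; rfl
    have hmono : Monotone t := by
      apply monotone_nat_of_le_succ
      intro n; rw [hstep]; nlinarith [sq_nonneg (t n)]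
    by_cases hinj : Function.Injective t
    · refine ⟨0, fun F hF n _ => ?_⟩
      let G : Polynomial ℂ := aeval (fun _ => (Polynomial.X : Polynomial ℂ)) F
      have hG : ∀ n, eval (fun i => (Phi^[n] v i : ℂ)) F = Polynomial.eval (t n : ℂ) G := by
        intro n
        rw [hdiag n]
        change _ = (Polynomial.evalRingHom (t n : ℂ)) (aeval _ F)
        rw [map_aeval]
        have hid : (Polynomial.evalRingHom (t n : ℂ)).comp (algebraMap ℂ (Polynomial ℂ))
            = RingHom.id ℂ := by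
          ext a; simp
        rw [hid, Polynomial.coe_evalRingHom, Polynomial.eval_X]
        rfl
      have hinf : Set.Infinite {n | eval (fun i => (Phi^[n] v i : ℂ)) F = 0} :=
        Nat.frequently_atTop_iff_infinite.mp hF
      have hroots : Set.Infinite {x : ℂ | Polynomial.eval x G = 0} := by
        apply Set.Infinite.mono _ (hinf.image (f := fun n => (t n : ℂ)) (by
          intro a _ b _ hab
          have hab' : (t a : ℂ) = (t b : ℂ) := hab
          exact hinj (by exact_mod_cast hab')))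
        rintro _ ⟨m, hm, rfl⟩
        have hm' : eval (fun i => (Phi^[m] v i : ℂ)) F = 0 := hm
        rw [hG] at hm'
        exact hm'
      have hG0 : G = 0 := by
        by_contra hne
        apply hroots
        apply (G.roots.toFinset.finite_toSet).subset
        intro x hx
        have hx' : Polynomial.eval x G = 0 := hx
        simp [hne, Polynomial.IsRoot.def, hx']
      rw [hG, hG0]; simp
    · -- eventually zero
      have : ∃ m, t m = 0 := by
        rw [Function.Injective] at hinj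
        push Not at hinj
        obtain ⟨a, b, hab, hne⟩ := hinj
        wlog hlt : a < b generalizing a b
        · exact this b a hab.symm (Ne.symm hne) (by omega)
        refine ⟨a, ?_⟩
        have h1 : t a ≤ t (a + 1) := hmono (Nat.le_succ a)
        have h2 : t (a + 1) ≤ t b := hmono hlt
        have h3 : t (a + 1) = t a := le_antisymm (h2.trans hab.ge) h1
        rw [hstep] at h3
        have h4 : t a ^ 2 = 0 := by linarith
        exact pow_eq_zero_iff (two_ne_zero) |>.mp h4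
      obtain ⟨m, hm⟩ := this
      have hz : ∀ k, t (m + k) = 0 := by
        intro k
        induction k with
        | zero => exact hm
        | succ k ih => rw [← add_assoc, hstep, ih]; ring
      refine ⟨m, fun F hF n hn => ?_⟩
      rw [frequently_atTop] at hF
      obtain ⟨b, hb, hb0⟩ := hF m
      have e1 : t b = 0 := by
        have := hz (b - m); rwa [show m + (b - m) = b by omega] at this
      have e2 : t n = 0 := by
        have := hz (n - m); rwa [show m + (n - m) = n by omega] at this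
      rw [hdiag n, e2]
      rw [hdiag b, e1] at hb0
      exact hb0





/-- the map over any commutative ring -/
def PhiR {R : Type} [CommRing R] (v : Fin 3 → R) : Fin 3 → R :=
  ![v 0 ^ 2 + v 1, v 1 ^ 2 + v 2, v 2 ^ 2 + v 0]

lemma PhiR_map {R R' : Type} [CommRing R] [CommRing R'] (f : R →+* R') (v : Fin 3 → R) :
    PhiR (f ∘ v) = f ∘ PhiR v := by
  funext i
  fin_cases i <;> simp [PhiR]

lemma PhiR_iter_map {R R' : Type} [CommRing R] [CommRing R'] (f : R →+* R') (v : Fin 3 → R)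
    (n : ℕ) : PhiR^[n] (f ∘ v) = f ∘ PhiR^[n] v := by
  induction n with
  | zero => rfl
  | succ n ih => rw [Function.iterate_succ_apply', Function.iterate_succ_apply', ih, PhiR_map]

lemma PhiR_eq_Phi (v : Fin 3 → ℝ) : PhiR v = Phi v := by
  funext i
  fin_cases i <;> simp [PhiR, Phi]

lemma PhiR_iter_eq_Phi (v : Fin 3 → ℝ) (n : ℕ) : PhiR^[n] v = Phi^[n] v := by
  induction n with
  | zero => rfl
  | succ n ih => rw [Function.iterate_succ_apply', Function.iterate_succ_apply', ih, PhiR_eq_Phi]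

section descent

variable (L : Subfield ℂ) (F : MvPolynomial (Fin 3) ℂ)

/-- coordinates of a complex polynomial with respect to a basis over `L` -/
noncomputable def comp {ι : Type} (B : Module.Basis ι L ℂ) (j : ι) : MvPolynomial (Fin 3) L :=
  ∑ κ ∈ F.support, monomial κ (B.repr (F.coeff κ) j)

lemma eval_comp {ι : Type} (B : Module.Basis ι L ℂ) (j : ι) (a : Fin 3 → L) :
    eval a (comp L F B j) = B.repr (eval (fun i => (a i : ℂ)) F) j := by
  unfold comp
  rw [map_sum, eval_eq' (fun i => (a i : ℂ)) F, map_sum, Finsupp.coe_finsetSum, Finset.sum_apply]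
  apply Finset.sum_congr rfl
  intro κ _
  rw [eval_monomial, Finsupp.prod_fintype _ _ (by simp)]
  have h1 : F.coeff κ * ∏ i, (a i : ℂ) ^ κ i = (∏ i, a i ^ κ i) • F.coeff κ := by
    rw [Algebra.smul_def, mul_comm]
    congr 1
  rw [h1, map_smul, Finsupp.smul_apply, smul_eq_mul, mul_comm]

/-- Descent of the real case to points of a field that embeds in `ℝ`. -/
theorem descent (σ : L →+* ℝ) (a : Fin 3 → L) :
    ∃ n1 : ℕ, ∀ F : MvPolynomial (Fin 3) ℂ,
      (∃ᶠ n in atTop, eval (PhiR^[n] (fun i => (a i : ℂ))) F = 0) →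
      ∀ n, n1 ≤ n → eval (PhiR^[n] (fun i => (a i : ℂ))) F = 0 := by
  obtain ⟨n1, h1⟩ := real_case (σ ∘ a)
  refine ⟨n1, fun F hF n hn => ?_⟩
  let B := Module.Basis.ofVectorSpace L ℂ
  have horb : ∀ n, PhiR^[n] (fun i => (a i : ℂ)) = fun i => ((PhiR^[n] a i : L) : ℂ) := by
    intro n
    exact PhiR_iter_map (algebraMap L ℂ) a n
  -- coordinates
  have hcoord : ∀ n j, B.repr (eval (PhiR^[n] (fun i => (a i : ℂ))) F) j =
      eval (PhiR^[n] a) (comp L F B j) := by
    intro n j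
    rw [eval_comp, horb]
  have hσ : ∀ n j, σ (eval (PhiR^[n] a) (comp L F B j)) =
      eval (Phi^[n] (σ ∘ a)) (map σ (comp L F B j)) := by
    intro n j
    rw [eval_map, ← PhiR_iter_eq_Phi, PhiR_iter_map, eval₂_comp]
  have hC : ∀ n j, (eval (Phi^[n] (σ ∘ a)) (map σ (comp L F B j)) : ℂ) =
      eval (fun i => (Phi^[n] (σ ∘ a) i : ℂ))
        (map (Complex.ofRealHom.comp σ) (comp L F B j)) := by
    intro n j
    have := eval₂_comp Complex.ofRealHom (Phi^[n] (σ ∘ a)) (map σ (comp L F B j))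
    rw [← MvPolynomial.map_map, eval_map Complex.ofRealHom]
    exact this
  have hiff : ∀ n j, B.repr (eval (PhiR^[n] (fun i => (a i : ℂ))) F) j = 0 ↔
      eval (fun i => (Phi^[n] (σ ∘ a) i : ℂ))
        (map (Complex.ofRealHom.comp σ) (comp L F B j)) = 0 := by
    intro n j
    rw [hcoord, ← hC, ← hσ, Complex.ofReal_eq_zero, _root_.map_eq_zero σ]
  apply B.repr.injective
  rw [map_zero]
  ext j
  rw [Finsupp.coe_zero, Pi.zero_apply]
  have h2 : B.repr (eval (PhiR^[n] (fun i => (a i : ℂ))) F) j = 0 := by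
    rw [hiff]
    apply h1 _ _ n hn
    refine hF.mono ?_
    intro m hm
    rw [← hiff, hm, map_zero]; rfl
  exact_mod_cast h2

end descent

/-- From the uniform statement to finite unions of arithmetic progressions. -/
lemma unionAP (Z : Set ℕ) (n1 : ℕ) (h : Z.Infinite → ∀ n, n1 ≤ n → n ∈ Z) :
    (Z.Finite ∨ Zᶜ.Finite) ∧
    ∃ F : Finset (ℕ × ℕ), Z = {m : ℕ | ∃ p ∈ F, ∃ j : ℕ, m = p.1 + p.2 * j} := by
  classical
  by_cases hfin : Z.Finite
  · refine ⟨Or.inl hfin, hfin.toFinset.image (fun m => (m, 0)), ?_⟩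
    ext m
    simp
  · have hall := h hfin
    refine ⟨Or.inr ((Set.finite_lt_nat n1).subset ?_), ?_⟩
    · intro n hn
      by_contra hcon
      exact hn (hall n (not_lt.mp hcon))
    · refine ⟨((Finset.range n1).filter (· ∈ Z)).image (fun m => (m, 0)) ∪ {(n1, 1)}, ?_⟩
      ext m
      simp only [Set.mem_ofPred_eq, Finset.mem_union, Finset.mem_image, Finset.mem_filter,
        Finset.mem_range, Finset.mem_singleton]
      constructor
      · intro hm
        rcases lt_or_ge m n1 with hlt | hge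
        · exact ⟨(m, 0), Or.inl ⟨m, ⟨hlt, hm⟩, rfl⟩, 0, by simp⟩
        · exact ⟨(n1, 1), Or.inr rfl, m - n1, by simp; omega⟩
      · rintro ⟨p, (⟨k, ⟨hk, hkZ⟩, rfl⟩ | rfl), j, rfl⟩
        · simpa using hkZ
        · exact hall _ (by simp)

/-- **Dynamical Mordell–Lang for `(x,y,z) ↦ (x^2+y, y^2+z, z^2+x)` at all points whose coordinate
field embeds into the real numbers.** -/
theorem result (α : Fin 3 → ℂ)
    (hα : Nonempty (Subfield.closure (Set.range α) →+* ℝ))
    (S : Set (MvPolynomial (Fin 3) ℂ)) :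
    ({n : ℕ | ∀ f ∈ S, eval
        ((fun v : Fin 3 → ℂ => ![v 0 ^ 2 + v 1, v 1 ^ 2 + v 2, v 2 ^ 2 + v 0])^[n] α) f = 0}.Finite ∨
      {n : ℕ | ∀ f ∈ S, eval
        ((fun v : Fin 3 → ℂ => ![v 0 ^ 2 + v 1, v 1 ^ 2 + v 2, v 2 ^ 2 + v 0])^[n] α) f = 0}ᶜ.Finite)
    ∧ ∃ F : Finset (ℕ × ℕ),
      {n : ℕ | ∀ f ∈ S, eval
        ((fun v : Fin 3 → ℂ => ![v 0 ^ 2 + v 1, v 1 ^ 2 + v 2, v 2 ^ 2 + v 0])^[n] α) f = 0}
        = {m : ℕ | ∃ p ∈ F, ∃ j : ℕ, m = p.1 + p.2 * j} := by
  obtain ⟨σ⟩ := hα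
  let L := Subfield.closure (Set.range α)
  let a : Fin 3 → L := fun i => ⟨α i, Subfield.subset_closure ⟨i, rfl⟩⟩
  obtain ⟨n1, h1⟩ := descent L σ a
  apply unionAP _ n1
  intro hinf n hn f hf
  apply h1 f _ n hn
  rw [Nat.frequently_atTop_iff_infinite]
  refine hinf.mono ?_
  intro m hm
  exact (Set.mem_ofPred_eq ▸ hm) f hf

end Pool.Agent.Results.MP_e9abfe_ag.RealPoints
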